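import Mathlib.Algebra.MvPolynomial.Basic
import Mathlib.Algebra.MvPolynomial.Rename
import Mathlib.Algebra.MvPolynomial.CommRing
import Mathlib.RingTheory.MvPolynomial.Basic
import Mathlib.RingTheory.MvPolynomial.Homogeneous
import Mathlib.Algebra.Order.Field.Rat
import Mathlib.Tactic

namespace Pool.Agent.Work.MP_d8cfe3_al

open MvPolynomial Finset

/-- The product of the differences. -/
noncomputable def Dl : MvPolynomial (Fin 4) ℚ :=
  (X 0 - X 1) * (X 0 - X 2) * (X 0 - X 3) * (X 1 - X 2) * (X 1 - X 3) * (X 2 - X 3)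

/-- Lower bound on a weighted degree of all monomials. -/
def LB (ω : Fin 4 → ℕ) (d : ℕ) (P : MvPolynomial (Fin 4) ℚ) : Prop :=
  ∀ e ∈ P.support, d ≤ ∑ i, ω i * e i

theorem LB.mul {ω : Fin 4 → ℕ} {a b : ℕ} {P Q : MvPolynomial (Fin 4) ℚ} (hP : LB ω a P)
    (hQ : LB ω b Q) : LB ω (a + b) (P * Q) := by
  classical
  intro e he
  obtain ⟨u, hu, v, hv, rfl⟩ := Finset.mem_add.1 (support_mul P Q he)
  have h1 := hP u hu
  have h2 := hQ v hv
  simp only [Finsupp.add_apply, mul_add, sum_add_distrib]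
  omega

theorem LB.pow {ω : Fin 4 → ℕ} {a : ℕ} {P : MvPolynomial (Fin 4) ℚ} (hP : LB ω a P) (n : ℕ) :
    LB ω (n * a) (P ^ n) := by
  induction n with
  | zero => intro e _; simp
  | succ n ih => rw [pow_succ, add_mul, one_mul]; exact ih.mul hP

theorem LB_sub (ω : Fin 4 → ℕ) (i j : Fin 4) :
    LB ω (min (ω i) (ω j)) (X i - X j : MvPolynomial (Fin 4) ℚ) := by
  classical
  intro e he
  have := support_sub (Fin 4) _ _ he
  rw [support_X, support_X] at this
  simp only [mem_union, mem_singleton] at this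
  rcases this with rfl | rfl
  · simp [Finsupp.single_apply]
  · simp [Finsupp.single_apply]

theorem LB_Dl (ω : Fin 4 → ℕ) (n : ℕ) :
    LB ω (n * (min (ω 0) (ω 1) + min (ω 0) (ω 2) + min (ω 0) (ω 3) + min (ω 1) (ω 2)
      + min (ω 1) (ω 3) + min (ω 2) (ω 3))) (Dl ^ n) :=
  LB.pow ((((((LB_sub ω 0 1).mul (LB_sub ω 0 2)).mul (LB_sub ω 0 3)).mul (LB_sub ω 1 2)).mul
    (LB_sub ω 1 3)).mul (LB_sub ω 2 3)) n

theorem Dl_hom (n : ℕ) : (Dl ^ n).IsHomogeneous (6 * n) := by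
  have h : ∀ i j : Fin 4, (X i - X j : MvPolynomial (Fin 4) ℚ).IsHomogeneous 1 :=
    fun i j => (isHomogeneous_X ℚ i).sub (isHomogeneous_X ℚ j)
  exact ((((((h 0 1).mul (h 0 2)).mul (h 0 3)).mul (h 1 2)).mul (h 1 3)).mul (h 2 3)).pow n

theorem supp_facts (p : ℕ) (e : Fin 4 →₀ ℕ) (he : e ∈ (Dl ^ (2 * p)).support) :
    e 0 + e 1 + e 2 + e 3 = 12 * p ∧ 2 * p ≤ e 0 + e 3 ∧ 2 * p ≤ e 1 + e 2 ∧ 2 * p ≤ e 2 + e 3 ∧
      6 * p ≤ e 1 + e 2 + e 3 ∧ 6 * p ≤ e 0 + e 2 + e 3 ∧ 6 * p ≤ e 0 + e 1 + e 3 ∧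
      6 * p ≤ e 0 + e 1 + e 2 := by
  have h0 := Dl_hom (2 * p) (mem_support_iff.1 he)
  rw [Finsupp.weight_apply, Finsupp.sum_fintype _ _ (by simp), Fin.sum_univ_four] at h0
  simp only [Pi.one_apply, smul_eq_mul, mul_one] at h0
  have h1 := LB_Dl ![1, 0, 0, 1] (2 * p) e he
  have h2 := LB_Dl ![0, 1, 1, 0] (2 * p) e he
  have h3 := LB_Dl ![0, 0, 1, 1] (2 * p) e he
  have h4 := LB_Dl ![0, 1, 1, 1] (2 * p) e he
  have h5 := LB_Dl ![1, 0, 1, 1] (2 * p) e he
  have h6 := LB_Dl ![1, 1, 0, 1] (2 * p) e he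
  have h7 := LB_Dl ![1, 1, 1, 0] (2 * p) e he
  simp [Fin.sum_univ_four] at h1 h2 h3 h4 h5 h6 h7
  omega

section Theta

variable {R : Type} [CommRing R] [Algebra ℚ R]

/-- Linear functional attached to four sequences. -/
noncomputable def Th (f : Fin 4 → ℕ → R) : MvPolynomial (Fin 4) ℚ →ₗ[ℚ] R :=
  (basisMonomials (Fin 4) ℚ).constr ℚ (fun e => ∏ i, f i (e i))

theorem Th_monomial (f : Fin 4 → ℕ → R) (e : Fin 4 →₀ ℕ) (c : ℚ) :
    Th f (monomial e c) = c • ∏ i, f i (e i) := by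
  have : (monomial e c : MvPolynomial (Fin 4) ℚ) = c • basisMonomials (Fin 4) ℚ e := by
    simp [smul_monomial]
  rw [this, map_smul, Th, Module.Basis.constr_basis]

theorem Th_eq_sum (f : Fin 4 → ℕ → R) (P : MvPolynomial (Fin 4) ℚ) :
    Th f P = ∑ e ∈ P.support, coeff e P • ∏ i, f i (e i) := by
  conv_lhs => rw [P.as_sum, map_sum]
  simp only [Th_monomial]

theorem Th_ext {F G : MvPolynomial (Fin 4) ℚ →ₗ[ℚ] R}
    (h : ∀ e, F (monomial e 1) = G (monomial e 1)) (P : MvPolynomial (Fin 4) ℚ) : F P = G P := by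
  have : F = G := (basisMonomials (Fin 4) ℚ).ext (fun e => by simpa using h e)
  rw [this]

theorem Th_rename (f : Fin 4 → ℕ → R) (σ : Equiv.Perm (Fin 4)) (P : MvPolynomial (Fin 4) ℚ) :
    Th f (rename σ P) = Th (fun i => f (σ i)) P := by
  refine Th_ext (F := Th f ∘ₗ (rename σ).toLinearMap) (fun e => ?_) P
  simp only [LinearMap.comp_apply, AlgHom.toLinearMap_apply, rename_monomial, Th_monomial]
  congr 1
  rw [← Equiv.prod_comp σ]
  refine prod_congr rfl fun i _ => ?_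
  rw [Finsupp.mapDomain_apply σ.injective]

theorem Th_shift (f : Fin 4 → ℕ → R) (P : MvPolynomial (Fin 4) ℚ) :
    Th f (aeval (fun i => X i + 1) P)
      = Th (fun i e => ∑ j ∈ range (e + 1), (e.choose j : ℚ) • f i j) P := by
  rw [← AlgHom.toLinearMap_apply, ← LinearMap.comp_apply (Th f)]
  refine Th_ext (fun e => ?_) P
  simp only [LinearMap.comp_apply, AlgHom.toLinearMap_apply, aeval_monomial, Th_monomial, map_one,
    one_mul, one_smul]
  rw [Finsupp.prod_fintype _ _ (by simp)]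
  simp only [add_pow, one_pow, mul_one]
  rw [Finset.prod_univ_sum, Finset.prod_univ_sum, map_sum]
  refine sum_congr rfl fun j _ => ?_
  have : ∏ x : Fin 4, ((X x : MvPolynomial (Fin 4) ℚ) ^ j x * ((e x).choose (j x) : ℕ))
      = monomial (Finsupp.equivFunOnFinite.symm j) (∏ x, ((e x).choose (j x) : ℚ)) := by
    rw [monomial_eq, Finsupp.prod_fintype _ _ (by simp), prod_mul_distrib, mul_comm, map_prod]
    simp
  rw [this, Th_monomial, Finset.prod_smul]
  simp

/-- The four-linear form. -/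
noncomputable def B (p : ℕ) (f0 f1 f2 f3 : ℕ → R) : R := Th ![f0, f1, f2, f3] (Dl ^ (2 * p))

theorem B_eq (p : ℕ) (f0 f1 f2 f3 : ℕ → R) : B p f0 f1 f2 f3 = ∑ e ∈ (Dl ^ (2 * p)).support,
    coeff e (Dl ^ (2 * p)) • (f0 (e 0) * f1 (e 1) * f2 (e 2) * f3 (e 3)) := by
  simp [B, Th_eq_sum, Fin.prod_univ_four]

theorem rename_Dl (σ : Equiv.Perm (Fin 4)) (h : rename σ Dl = -Dl) (p : ℕ) :
    rename σ (Dl ^ (2 * p)) = Dl ^ (2 * p) := by
  rw [map_pow, h, Even.neg_pow (by simp)]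

theorem B_swap01 (p : ℕ) (f0 f1 f2 f3 : ℕ → R) : B p f0 f1 f2 f3 = B p f1 f0 f2 f3 := by
  have h : rename (Equiv.swap (0 : Fin 4) 1) Dl = -Dl := by
    simp [Dl, Equiv.swap_apply_def]; ring
  rw [B, ← rename_Dl _ h, Th_rename, B]
  congr 2
  funext i
  fin_cases i <;> simp [Equiv.swap_apply_def]

theorem B_swap12 (p : ℕ) (f0 f1 f2 f3 : ℕ → R) : B p f0 f1 f2 f3 = B p f0 f2 f1 f3 := by
  have h : rename (Equiv.swap (1 : Fin 4) 2) Dl = -Dl := by
    simp [Dl, Equiv.swap_apply_def]; ring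
  rw [B, ← rename_Dl _ h, Th_rename, B]
  congr 2
  funext i
  fin_cases i <;> simp [Equiv.swap_apply_def]

theorem B_swap23 (p : ℕ) (f0 f1 f2 f3 : ℕ → R) : B p f0 f1 f2 f3 = B p f0 f1 f3 f2 := by
  have h : rename (Equiv.swap (2 : Fin 4) 3) Dl = -Dl := by
    simp [Dl, Equiv.swap_apply_def]; ring
  rw [B, ← rename_Dl _ h, Th_rename, B]
  congr 2
  funext i
  fin_cases i <;> simp [Equiv.swap_apply_def]

theorem B_swap03 (p : ℕ) (f0 f1 f2 f3 : ℕ → R) : B p f0 f1 f2 f3 = B p f3 f1 f2 f0 := by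
  rw [B_swap01, B_swap12, B_swap23, B_swap12, B_swap01, B_swap12, B_swap12]

theorem B_add0 (p : ℕ) (f g f1 f2 f3 : ℕ → R) :
    B p (f + g) f1 f2 f3 = B p f f1 f2 f3 + B p g f1 f2 f3 := by
  simp only [B_eq, ← sum_add_distrib, ← smul_add, Pi.add_apply]
  refine sum_congr rfl fun e _ => ?_
  congr 1; ring

theorem B_add1 (p : ℕ) (f g f0 f2 f3 : ℕ → R) :
    B p f0 (f + g) f2 f3 = B p f0 f f2 f3 + B p f0 g f2 f3 := by
  simp only [B_eq, ← sum_add_distrib, ← smul_add, Pi.add_apply]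
  refine sum_congr rfl fun e _ => ?_
  congr 1; ring

theorem B_add2 (p : ℕ) (f g f0 f1 f3 : ℕ → R) :
    B p f0 f1 (f + g) f3 = B p f0 f1 f f3 + B p f0 f1 g f3 := by
  simp only [B_eq, ← sum_add_distrib, ← smul_add, Pi.add_apply]
  refine sum_congr rfl fun e _ => ?_
  congr 1; ring

theorem B_add3 (p : ℕ) (f g f0 f1 f2 : ℕ → R) :
    B p f0 f1 f2 (f + g) = B p f0 f1 f2 f + B p f0 f1 f2 g := by
  simp only [B_eq, ← sum_add_distrib, ← smul_add, Pi.add_apply]
  refine sum_congr rfl fun e _ => ?_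
  congr 1; ring

theorem B_shift (p : ℕ) (f0 f1 f2 f3 : ℕ → R) : B p f0 f1 f2 f3 =
    B p (fun e => ∑ j ∈ range (e + 1), (e.choose j : ℚ) • f0 j)
      (fun e => ∑ j ∈ range (e + 1), (e.choose j : ℚ) • f1 j)
      (fun e => ∑ j ∈ range (e + 1), (e.choose j : ℚ) • f2 j)
      (fun e => ∑ j ∈ range (e + 1), (e.choose j : ℚ) • f3 j) := by
  have h : aeval (fun i => X i + 1) (Dl ^ (2 * p)) = Dl ^ (2 * p) := by
    rw [map_pow]; congr 1; simp [Dl]
  rw [B, ← h, Th_shift, B]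
  congr 2
  funext i
  fin_cases i <;> rfl

end Theta

/-- Palindromic polynomials. -/
def Sy (d : Fin 4 →₀ ℕ) (ε : ℚ) (P : MvPolynomial (Fin 4) ℚ) : Prop :=
  (∀ a ∈ P.support, a ≤ d) ∧ ∀ a b, a + b = d → coeff a P = ε * coeff b P

theorem Sy.mul {d d' : Fin 4 →₀ ℕ} {ε ε' : ℚ} {P Q : MvPolynomial (Fin 4) ℚ} (hP : Sy d ε P)
    (hQ : Sy d' ε' Q) : Sy (d + d') (ε * ε') (P * Q) := by
  classical
  constructor
  · intro e he
    obtain ⟨u, hu, v, hv, rfl⟩ := Finset.mem_add.1 (support_mul P Q he)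
    exact add_le_add (hP.1 u hu) (hQ.1 v hv)
  · intro a b hab
    have key : ∀ c, coeff c (P * Q) = ∑ x ∈ (antidiagonal c).filter (fun x => x.1 ≤ d ∧ x.2 ≤ d'),
        coeff x.1 P * coeff x.2 Q := by
      intro c
      rw [coeff_mul, sum_filter]
      refine sum_congr rfl fun x _ => ?_
      split_ifs with h
      · rfl
      · rw [not_and_or] at h
        rcases h with h | h
        · rw [notMem_support_iff.1 (fun h' => h (hP.1 _ h')), zero_mul]
        · rw [notMem_support_iff.1 (fun h' => h (hQ.1 _ h')), mul_zero]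
    rw [key, key, mul_sum]
    have aux : ∀ a b : Fin 4 →₀ ℕ, a + b = d + d' →
        ∀ x ∈ (antidiagonal a).filter (fun x => x.1 ≤ d ∧ x.2 ≤ d'),
        (d - x.1, d' - x.2) ∈ (antidiagonal b).filter (fun x => x.1 ≤ d ∧ x.2 ≤ d') := by
      intro a b hab x hx
      simp only [mem_filter, mem_antidiagonal] at hx ⊢
      refine ⟨?_, tsub_le_self, tsub_le_self⟩
      ext i
      have h1 := congrArg (fun f => f i) hab
      have h2 := congrArg (fun f => f i) hx.1
      have h3 := hx.2.1 i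
      have h4 := hx.2.2 i
      simp only [Finsupp.add_apply, Finsupp.tsub_apply] at h1 h2 ⊢
      omega
    refine sum_bij' (fun x _ => (d - x.1, d' - x.2)) (fun x _ => (d - x.1, d' - x.2))
      (aux a b hab) (aux b a (by rw [add_comm, hab])) ?_ ?_ ?_
    · intro x hx
      simp only [mem_filter] at hx
      simp [tsub_tsub_cancel_of_le hx.2.1, tsub_tsub_cancel_of_le hx.2.2]
    · intro x hx
      simp only [mem_filter] at hx
      simp [tsub_tsub_cancel_of_le hx.2.1, tsub_tsub_cancel_of_le hx.2.2]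
    · intro x hx
      simp only [mem_filter] at hx
      rw [hP.2 x.1 (d - x.1) (add_tsub_cancel_of_le hx.2.1),
        hQ.2 x.2 (d' - x.2) (add_tsub_cancel_of_le hx.2.2)]
      ring

theorem Sy.pow {d : Fin 4 →₀ ℕ} {ε : ℚ} {P : MvPolynomial (Fin 4) ℚ} (hP : Sy d ε P) (n : ℕ) :
    Sy (n • d) (ε ^ n) (P ^ n) := by
  classical
  induction n with
  | zero =>
    constructor
    · intro a ha
      simp only [pow_zero, support_one, mem_singleton] at ha
      simp [ha]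
    · intro a b hab
      simp only [zero_smul, add_eq_zero] at hab
      simp [hab.1, hab.2]
  | succ n ih => rw [pow_succ, pow_succ, succ_nsmul]; exact ih.mul hP

theorem Sy_X (i : Fin 4) : Sy (Finsupp.single i 1 + Finsupp.single i 1) 1 (X i) := by
  classical
  constructor
  · intro a ha
    rw [support_X, mem_singleton] at ha
    rw [ha]; exact le_self_add
  · intro a b hab
    rw [one_mul, coeff_X, coeff_X]
    congr 1
    apply propext
    constructor
    · rintro rfl; exact (add_left_cancel hab).symm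
    · rintro rfl; exact (add_right_cancel hab).symm

theorem Sy_sub (i j : Fin 4) :
    Sy (Finsupp.single i 1 + Finsupp.single j 1) (-1) (X i - X j) := by
  classical
  constructor
  · intro a ha
    have := support_sub (Fin 4) _ _ ha
    rw [support_X, support_X] at this
    simp only [mem_union, mem_singleton] at this
    rcases this with rfl | rfl
    · exact le_self_add
    · exact le_add_self
  · intro a b hab
    rw [coeff_sub, coeff_sub, coeff_X, coeff_X, coeff_X, coeff_X]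
    have h1 : (Finsupp.single i 1 = a) ↔ (Finsupp.single j 1 = b) := by
      constructor
      · rintro rfl; exact (add_left_cancel hab).symm
      · rintro rfl; exact (add_right_cancel hab).symm
    have h2 : (Finsupp.single j 1 = a) ↔ (Finsupp.single i 1 = b) := by
      rw [add_comm (Finsupp.single i 1)] at hab
      constructor
      · rintro rfl; exact (add_left_cancel hab).symm
      · rintro rfl; exact (add_right_cancel hab).symm
    simp only [h1, h2]
    ring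

theorem Sy.coeff_sq_ne {d : Fin 4 →₀ ℕ} {ε : ℚ} {P : MvPolynomial (Fin 4) ℚ} (hP : Sy d ε P)
    (hε : ε ≠ 0) (h0 : P ≠ 0) : coeff d (P * P) ≠ 0 := by
  classical
  have : coeff d (P * P) = ε * ∑ x ∈ antidiagonal d, coeff x.2 P ^ 2 := by
    rw [coeff_mul, mul_sum]
    refine sum_congr rfl fun x hx => ?_
    rw [hP.2 x.1 x.2 (mem_antidiagonal.1 hx)]
    ring
  rw [this]
  refine mul_ne_zero hε (ne_of_gt ?_)
  obtain ⟨b, hb⟩ := support_nonempty.2 h0
  refine sum_pos' (fun x _ => sq_nonneg _) ⟨(d - b, b), ?_, ?_⟩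
  · rw [mem_antidiagonal]; exact tsub_add_cancel_of_le (hP.1 b hb)
  · have := mem_support_iff.1 hb
    positivity

theorem dyson_ne (p : ℕ) (e : Fin 4 →₀ ℕ) (h0 : e 0 = 0) (h1 : e 1 = 4 * p) (h2 : e 2 = 4 * p)
    (h3 : e 3 = 4 * p) : coeff e (Dl ^ (2 * p)) ≠ 0 := by
  classical
  let A : MvPolynomial (Fin 4) ℚ := X 1 * X 2 * X 3 * (X 1 - X 2) * (X 1 - X 3) * (X 2 - X 3)
  have hS := ((((((Sy_X 1).mul (Sy_X 2)).mul (Sy_X 3)).mul (Sy_sub 1 2)).mul (Sy_sub 1 3)).mul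
    (Sy_sub 2 3)).pow p
  have hA : A ≠ 0 := by
    intro h
    have := congrArg (eval ![(0 : ℚ), 1, 2, 3]) h
    simp [A] at this
    norm_num at this
  have hne := hS.coeff_sq_ne (by norm_num) (pow_ne_zero p hA)
  have hd : e = p • (Finsupp.single (1 : Fin 4) 1 + Finsupp.single 1 1 +
      (Finsupp.single 2 1 + Finsupp.single 2 1) + (Finsupp.single 3 1 + Finsupp.single 3 1) +
      (Finsupp.single 1 1 + Finsupp.single 2 1) + (Finsupp.single 1 1 + Finsupp.single 3 1) +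
      (Finsupp.single 2 1 + Finsupp.single 3 1)) := by
    ext i
    fin_cases i <;> simp [h0, h1, h2, h3] <;> ring
  rw [← hd] at hne
  have hdvd : (X 0 : MvPolynomial (Fin 4) ℚ) ∣ Dl ^ (2 * p) - (-A) ^ (2 * p) := by
    refine Dvd.dvd.trans ?_ (sub_dvd_pow_sub_pow _ _ _)
    exact ⟨(X 0 ^ 2 - X 0 * (X 1 + X 2 + X 3) + (X 1 * X 2 + X 1 * X 3 + X 2 * X 3))
      * (X 1 - X 2) * (X 1 - X 3) * (X 2 - X 3), by simp only [Dl, A]; ring⟩
  obtain ⟨Q, hQ⟩ := hdvd
  have : Dl ^ (2 * p) = A ^ p * A ^ p + X 0 * Q := by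
    rw [← hQ, Even.neg_pow (by simp), two_mul, pow_add]; ring
  rw [this, coeff_add, coeff_X_mul']
  simpa [h0] using hne

end Pool.Agent.Work.MP_d8cfe3_al
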