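import Pool.Agent.Work.MP_d8cfe3_al.Series
import Pool.Agent.Work.MP_d8cfe3_al.Vdm

namespace Pool.Agent.Work.MP_d8cfe3_al

open PowerSeries Finset

/-- shifted sequences -/
noncomputable def fa (M : ℕ) (t : ℚ) (e : ℕ) : ℚ⟦X⟧ := al (M + 1) (t + e)
/-- shifted sequences -/
noncomputable def fb (M : ℕ) (t : ℚ) (e : ℕ) : ℚ⟦X⟧ := be (M + 1) (t + e)
/-- shifted sequences -/
noncomputable def fx (M : ℕ) (t : ℚ) (e : ℕ) : ℚ⟦X⟧ := xi (M + 1) (t + e)

/-- The outer residue. -/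
noncomputable def Lam (p : ℕ) (t : ℚ) (F : ℚ⟦X⟧) : ℚ :=
  coeff (24 * p - 2) (z (6 * p - 2 - 2 * t) * F)

theorem Lam_add (p : ℕ) (t : ℚ) (F G : ℚ⟦X⟧) : Lam p t (F + G) = Lam p t F + Lam p t G := by
  simp [Lam, mul_add]

theorem Lam_neg (p : ℕ) (t : ℚ) (F : ℚ⟦X⟧) : Lam p t (-F) = -Lam p t F := by
  simp [Lam]

variable {p M : ℕ}

theorem fb_eq (hM : M + 1 = 4 * p) (t : ℚ) : fb M t = fa M t + fx M t := by
  funext e
  exact be_eq M ⟨2 * p - 1, by omega⟩ _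

theorem D_fa (t : ℚ) (e : ℕ) : D M (fa M t e) := D_al (M + 1) _

theorem D_B {c : ℚ⟦X⟧} {d : ℕ} (f0 f1 f2 f3 : ℕ → ℚ⟦X⟧)
    (h : ∀ e ∈ (Dl ^ (2 * p)).support, D d (c * (f0 (e 0) * f1 (e 1) * f2 (e 2) * f3 (e 3)))) :
    D d (c * B p f0 f1 f2 f3) := by
  rw [B_eq, mul_sum]
  refine D_sum _ fun e he => ?_
  rw [mul_smul_comm]
  exact (h e he).smul _

theorem B_zero (f0 f1 f2 f3 : ℕ → ℚ⟦X⟧)
    (h : ∀ e ∈ (Dl ^ (2 * p)).support, f0 (e 0) * f1 (e 1) * f2 (e 2) * f3 (e 3) = 0) :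
    B p f0 f1 f2 f3 = 0 := by
  rw [B_eq]
  exact sum_eq_zero fun e he => by rw [h e he, smul_zero]

theorem Lam_of_D (hM : M + 1 = 4 * p) (t : ℚ) (F : ℚ⟦X⟧)
    (h : D (24 * p - 3) (z (6 * p - 2 - 2 * t) * F)) : Lam p t F = 0 :=
  h _ (by omega)

theorem castM (hM : M + 1 = 4 * p) : (M : ℚ) = 4 * p - 1 := by
  have : ((M + 1 : ℕ) : ℚ) = ((4 * p : ℕ) : ℚ) := by rw [hM]
  push_cast at this
  linarith

theorem S2_zero (hM : M + 1 = 4 * p) (t : ℚ) :
    Lam p t (B p (fa M t) (fa M t) (fx M t) (fx M t)) = 0 := by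
  refine Lam_of_D hM t _ (D_B _ _ _ _ fun e he => ?_)
  obtain ⟨h0, h1, h2, h3, h4, h5, h6, h7⟩ := supp_facts p e he
  obtain ⟨w, hw⟩ : ∃ w, e 2 + e 3 = 2 * p + w := ⟨e 2 + e 3 - 2 * p, by omega⟩
  have hw' : (e 2 : ℚ) + e 3 = 2 * p + w := by exact_mod_cast hw
  have e1 : z (6 * p - 2 - 2 * t) * (fa M t (e 0) * fa M t (e 1) * fx M t (e 2) * fx M t (e 3))
      = z w * (fa M t (e 0) * fa M t (e 1) * eta M (t + e 2) * eta M (t + e 3)) := by
    rw [show (w : ℚ) = (6 * p - 2 - 2 * t) + (t + e 2 - M) + (t + e 3 - M) by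
      rw [castM hM]; linarith, z_add, z_add, fx, fx, xi_eq, xi_eq]
    ring
  rw [e1]
  have hsw : 2 * p ≤ e 0 + e 1 := by
    have := LB_Dl ![1, 1, 0, 0] (2 * p) e he
    simpa [Fin.sum_univ_four] using this
  exact ((D_z w).mul ((((D_fa t _).mul (D_fa t _)).mul (D_eta M _)).mul (D_eta M _))).mono
    (by omega)

theorem T4_zero (hM : M + 1 = 4 * p) (t : ℚ) :
    Lam p t (B p (fb M t) (fb M t) (fb M t) (fb M t)) = 0 := by
  have : X ^ (4 * (2 * (M + 1) - 1)) ∣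
      z (6 * p - 2 - 2 * t) * B p (fb M t) (fb M t) (fb M t) (fb M t) := by
    refine Dvd.dvd.mul_left ?_ _
    rw [B_eq]
    refine dvd_sum fun e _ => ?_
    rw [smul_eq_C_mul]
    refine Dvd.dvd.mul_left ?_ _
    rw [show 4 * (2 * (M + 1) - 1) = (2 * (M + 1) - 1) + (2 * (M + 1) - 1) + (2 * (M + 1) - 1)
      + (2 * (M + 1) - 1) by ring, pow_add, pow_add, pow_add]
    exact mul_dvd_mul (mul_dvd_mul (mul_dvd_mul (be_dvd _ _) (be_dvd _ _)) (be_dvd _ _))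
      (be_dvd _ _)
  exact X_pow_dvd_iff.1 this _ (by omega)

theorem decomp (hM : M + 1 = 4 * p) (t : ℚ) :
    4 * Lam p t (B p (fa M t) (fb M t) (fb M t) (fx M t))
      = -(Lam p t (B p (fa M t) (fa M t) (fa M t) (fa M t))
        + Lam p t (B p (fx M t) (fx M t) (fx M t) (fx M t))) := by
  have h4 := T4_zero hM t
  have h2 := S2_zero hM t
  have s01 : ∀ f g, B p (fx M t) (fa M t) f g = B p (fa M t) (fx M t) f g :=
    fun f g => B_swap01 _ _ _ _ _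
  have s12 : ∀ f g, B p f (fx M t) (fa M t) g = B p f (fa M t) (fx M t) g :=
    fun f g => B_swap12 _ _ _ _ _
  have s23 : ∀ f g, B p f g (fx M t) (fa M t) = B p f g (fa M t) (fx M t) :=
    fun f g => B_swap23 _ _ _ _ _
  simp only [fb_eq hM, B_add0, B_add1, B_add2, B_add3, Lam_add, s01, s12, s23] at h4 ⊢
  linarith

theorem root_half (hM : M + 1 = 4 * p) (j : ℕ) (hj : j < 4 * p) (t : ℚ)
    (ht : t = j - p - 1 / 2) : Lam p t (B p (fa M t) (fb M t) (fb M t) (fx M t)) = 0 := by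
  have h0 : Lam p t (B p (fa M t) (fa M t) (fa M t) (fa M t)) = 0 := by
    refine Lam_of_D hM t _ (D_B _ _ _ _ fun e _ => ?_)
    obtain ⟨w, hw⟩ : ∃ w, 8 * p = 2 * j + 1 + w := ⟨8 * p - (2 * j + 1), by omega⟩
    have hw' : (8 * p : ℚ) = 2 * j + 1 + w := by exact_mod_cast hw
    rw [show 6 * p - 2 - 2 * t = (w : ℚ) by rw [ht]; linarith]
    exact ((D_z w).mul ((((D_fa t _).mul (D_fa t _)).mul (D_fa t _)).mul (D_fa t _))).mono
      (by omega)
  have h4 : Lam p t (B p (fx M t) (fx M t) (fx M t) (fx M t)) = 0 := by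
    refine Lam_of_D hM t _ (D_B _ _ _ _ fun e he => ?_)
    have h0 := (supp_facts p e he).1
    have h0' : (e 0 : ℚ) + e 1 + e 2 + e 3 = 12 * p := by exact_mod_cast h0
    have e1 : z (6 * p - 2 - 2 * t) * (fx M t (e 0) * fx M t (e 1) * fx M t (e 2) * fx M t (e 3))
        = z ((2 * j + 1 : ℕ) : ℚ) *
          (eta M (t + e 0) * eta M (t + e 1) * eta M (t + e 2) * eta M (t + e 3)) := by
      rw [show ((2 * j + 1 : ℕ) : ℚ) = (6 * p - 2 - 2 * t) + (t + e 0 - M) + (t + e 1 - M)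
        + (t + e 2 - M) + (t + e 3 - M) by rw [castM hM, ht]; push_cast; linarith,
        z_add, z_add, z_add, z_add, fx, fx, fx, fx, xi_eq, xi_eq, xi_eq, xi_eq]
      ring
    rw [e1]
    exact ((D_z _).mul ((((D_eta M _).mul (D_eta M _)).mul (D_eta M _)).mul (D_eta M _))).mono
      (by omega)
  have := decomp hM t
  rw [h0, h4] at this
  linarith

theorem split1 (hM : M + 1 = 4 * p) (t : ℚ) :
    B p (fa M t) (fb M t) (fb M t) (fx M t) =
      B p (fa M t) (fb M t) (fb M t) (fb M t) - B p (fa M t) (fb M t) (fb M t) (fa M t) := by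
  have := B_add3 p (fa M t) (fx M t) (fa M t) (fb M t) (fb M t)
  rw [← fb_eq hM] at this
  rw [this]; ring

theorem split2 (hM : M + 1 = 4 * p) (t : ℚ) :
    B p (fa M t) (fb M t) (fb M t) (fx M t) =
      B p (fb M t) (fb M t) (fb M t) (fb M t) - B p (fa M t) (fb M t) (fb M t) (fb M t)
        - B p (fx M t) (fb M t) (fb M t) (fx M t) := by
  have h1 := B_add0 p (fa M t) (fx M t) (fb M t) (fb M t) (fx M t)
  have h2 := B_add3 p (fa M t) (fx M t) (fb M t) (fb M t) (fb M t)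
  rw [← fb_eq hM] at h1 h2
  rw [B_swap03 p (fb M t) (fb M t) (fb M t) (fa M t)] at h2
  rw [h2, h1]; ring

theorem fb_nat (τ e : ℕ) : fb M τ e = be (M + 1) ((τ + e : ℕ) : ℚ) := by
  simp [fb]

theorem F1_deg (hM : M + 1 = 4 * p) (τ : ℕ) :
    D (18 * p - 2 + 2 * τ) (B p (fa M τ) (fb M τ) (fb M τ) (fa M τ)) := by
  rw [← one_mul (B p _ _ _ _)]
  refine D_B _ _ _ _ fun e he => ?_
  obtain ⟨h0, h1, h2, h3, h4, h5, h6, h7⟩ := supp_facts p e he
  rw [one_mul, fb_nat, fb_nat]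
  exact ((((D_fa _ _).mul (D_be _ _)).mul (D_be _ _)).mul (D_fa _ _)).mono (by omega)

theorem G2_deg (hM : M + 1 = 4 * p) (τ : ℕ) :
    D (40 * p + 2 * τ) (z (6 * p - 2 - 2 * τ) * B p (fx M τ) (fb M τ) (fb M τ) (fx M τ)) := by
  refine D_B _ _ _ _ fun e he => ?_
  obtain ⟨h0, h1, h2, h3, h4, h5, h6, h7⟩ := supp_facts p e he
  obtain ⟨w, hw⟩ : ∃ w, e 0 + e 3 = 2 * p + w := ⟨e 0 + e 3 - 2 * p, by omega⟩
  have hw' : (e 0 : ℚ) + e 3 = 2 * p + w := by exact_mod_cast hw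
  have e1 : z (6 * p - 2 - 2 * τ) * (fx M τ (e 0) * fb M τ (e 1) * fb M τ (e 2) * fx M τ (e 3))
      = z w * (eta M (τ + e 0) * fb M τ (e 1) * fb M τ (e 2) * eta M (τ + e 3)) := by
    rw [show (w : ℚ) = (6 * p - 2 - 2 * τ) + (τ + e 0 - M) + (τ + e 3 - M) by
      rw [castM hM]; linarith, z_add, z_add, fx, fx, xi_eq, xi_eq]
    ring
  rw [e1, fb_nat, fb_nat]
  exact ((D_z w).mul ((((D_eta M _).mul (D_be _ _)).mul (D_be _ _)).mul (D_eta M _))).mono
    (by omega)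

theorem root_pos (hM : M + 1 = 4 * p) (τ : ℕ) (hτ : τ < M) :
    Lam p τ (B p (fa M τ) (fb M τ) (fb M τ) (fx M τ)) = 0 := by
  have h3 : ∀ f, B p f (fb M τ) (fb M τ) (fb M τ) = 0 := by
    intro f
    refine B_zero _ _ _ _ fun e he => ?_
    obtain ⟨h0, h1, h2, h3, h4, h5, h6, h7⟩ := supp_facts p e he
    rw [fb_nat, fb_nat, fb_nat]
    by_cases a1 : e 1 ≤ 4 * p
    · rw [be_nat_zero _ (τ + e 1) (by omega)]; simp
    by_cases a2 : e 2 ≤ 4 * p
    · rw [be_nat_zero _ (τ + e 2) (by omega)]; simp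
    · rw [be_nat_zero _ (τ + e 3) (by omega)]; simp
  have e1 := split1 hM τ
  have e2 := split2 hM τ
  rw [h3] at e1 e2
  rw [h3] at e2
  have e3 : B p (fx M τ) (fb M τ) (fb M τ) (fx M τ) = B p (fa M τ) (fb M τ) (fb M τ) (fa M τ) := by
    linear_combination e2 - e1
  have hG := G2_deg hM τ
  rw [e3, show (6 * p - 2 - 2 * τ : ℚ) = ((6 * p - 2 - 2 * τ : ℤ) : ℚ) by push_cast; ring] at hG
  have := hG.cancel_int (d0 := 24 * p - 3) (F1_deg hM τ) (by omega)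
  rw [e1, zero_sub, Lam_neg, Lam_of_D hM _ _ (by simpa using this), neg_zero]

/-- The polynomial part of `fb` at negative integers. -/
noncomputable def mu' (M τ e : ℕ) : ℚ⟦X⟧ := if e < τ then mu M (τ - 1 - e) else 0

theorem D_mu' (τ e : ℕ) : D (2 * M + τ - e) (mu' M τ e) := by
  unfold mu'
  split_ifs with h
  · exact (D_mu _ _).mono (by omega)
  · exact D_zero _

theorem fb_neg (τ e : ℕ) (he : e < τ + (2 * M + 1)) :
    fb M (-(τ : ℚ)) e = z (-(τ : ℚ) + e - M) * mu' M τ e := by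
  unfold mu' fb
  split_ifs with h
  · obtain ⟨j, rfl⟩ : ∃ j, τ = e + j + 1 := ⟨τ - 1 - e, by omega⟩
    rw [show -((e + j + 1 : ℕ) : ℚ) + e = -((j + 1 : ℕ) : ℚ) by push_cast; ring, be_neg,
      show e + j + 1 - 1 - e = j by omega]
  · obtain ⟨j, rfl⟩ : ∃ j, e = τ + j := ⟨e - τ, by omega⟩
    rw [show -(τ : ℚ) + ((τ + j : ℕ) : ℚ) = (j : ℚ) by push_cast; ring,
      be_nat_zero _ _ (by omega), mul_zero]

theorem root_neg (hM : M + 1 = 4 * p) (τ : ℕ) (hτ0 : 1 ≤ τ) (hτ : τ ≤ 2 * p) (t : ℚ)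
    (ht : t = -(τ : ℚ)) : Lam p t (B p (fa M t) (fb M t) (fb M t) (fx M t)) = 0 := by
  subst ht
  have h3 : ∀ f, B p f (fb M (-(τ : ℚ))) (fb M (-(τ : ℚ))) (fb M (-(τ : ℚ))) = 0 := by
    intro f
    refine B_zero _ _ _ _ fun e he => ?_
    obtain ⟨h0, h1, h2, h3, h4, h5, h6, h7⟩ := supp_facts p e he
    rw [fb_neg _ _ (by omega), fb_neg _ _ (by omega), fb_neg _ _ (by omega)]
    unfold mu'
    by_cases a1 : e 1 < τ
    · by_cases a2 : e 2 < τ
      · rw [if_neg (show ¬ e 3 < τ by omega)]; simp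
      · rw [if_neg a2]; simp
    · rw [if_neg a1]; simp
  have e1 := split1 hM (-(τ : ℚ))
  have e2 := split2 hM (-(τ : ℚ))
  rw [h3] at e1 e2
  rw [h3] at e2
  have e3 : B p (fx M (-(τ : ℚ))) (fb M (-(τ : ℚ))) (fb M (-(τ : ℚ))) (fx M (-(τ : ℚ)))
      = B p (fa M (-(τ : ℚ))) (fb M (-(τ : ℚ))) (fb M (-(τ : ℚ))) (fa M (-(τ : ℚ))) := by
    linear_combination e2 - e1
  have hG : D (60 * p) (z (6 * p - 2 - 2 * (-(τ : ℚ))) *
      B p (fa M (-(τ : ℚ))) (fb M (-(τ : ℚ))) (fb M (-(τ : ℚ))) (fa M (-(τ : ℚ)))) := by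
    refine D_B _ _ _ _ fun e he => ?_
    obtain ⟨h0, h1, h2, h3, h4, h5, h6, h7⟩ := supp_facts p e he
    obtain ⟨w, hw⟩ : ∃ w, e 1 + e 2 = 2 * p + w := ⟨e 1 + e 2 - 2 * p, by omega⟩
    have hw' : (e 1 : ℚ) + e 2 = 2 * p + w := by exact_mod_cast hw
    have e1 : z (6 * p - 2 - 2 * (-(τ : ℚ))) * (fa M (-(τ : ℚ)) (e 0) * fb M (-(τ : ℚ)) (e 1)
        * fb M (-(τ : ℚ)) (e 2) * fa M (-(τ : ℚ)) (e 3))
        = z w * (fa M (-(τ : ℚ)) (e 0) * mu' M τ (e 1) * mu' M τ (e 2)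
          * fa M (-(τ : ℚ)) (e 3)) := by
      rw [show (w : ℚ) = (6 * p - 2 - 2 * (-(τ : ℚ))) + (-(τ : ℚ) + e 1 - M)
        + (-(τ : ℚ) + e 2 - M) by rw [castM hM]; linarith, z_add, z_add,
        fb_neg _ _ (by omega), fb_neg _ _ (by omega)]
      ring
    rw [e1]
    exact ((D_z w).mul ((((D_fa _ _).mul (D_mu' _ _)).mul (D_mu' _ _)).mul (D_fa _ _))).mono
      (by omega)
  have e4 : z (6 * p - 2 - 2 * (-(τ : ℚ))) *
      B p (fx M (-(τ : ℚ))) (fb M (-(τ : ℚ))) (fb M (-(τ : ℚ))) (fx M (-(τ : ℚ)))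
      = z ((2 * p + 2 - 2 * τ : ℤ) : ℚ) * B p (fun e => eta M (-(τ : ℚ) + e)) (mu' M τ) (mu' M τ)
        (fun e => eta M (-(τ : ℚ) + e)) := by
    rw [B_eq, B_eq, mul_sum, mul_sum]
    refine sum_congr rfl fun e he => ?_
    obtain ⟨h0, h1, h2, h3, h4, h5, h6, h7⟩ := supp_facts p e he
    have h0' : (e 0 : ℚ) + e 1 + e 2 + e 3 = 12 * p := by exact_mod_cast h0
    rw [mul_smul_comm, mul_smul_comm]
    congr 1
    rw [show ((2 * p + 2 - 2 * τ : ℤ) : ℚ) = (6 * p - 2 - 2 * (-(τ : ℚ))) + (-(τ : ℚ) + e 0 - M)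
        + (-(τ : ℚ) + e 1 - M) + (-(τ : ℚ) + e 2 - M) + (-(τ : ℚ) + e 3 - M) by
        rw [castM hM]; push_cast; linarith, z_add, z_add, z_add, z_add,
        fb_neg _ _ (by omega), fb_neg _ _ (by omega), fx, fx, xi_eq, xi_eq]
    ring
  have hF : D (22 * p - 6 + 2 * τ) (B p (fun e => eta M (-(τ : ℚ) + e)) (mu' M τ) (mu' M τ)
        (fun e => eta M (-(τ : ℚ) + e))) := by
    rw [← one_mul (B p _ _ _ _)]
    refine D_B _ _ _ _ fun e he => ?_
    obtain ⟨h0, h1, h2, h3, h4, h5, h6, h7⟩ := supp_facts p e he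
    rw [one_mul]
    exact ((((D_eta M _).mul (D_mu' _ _)).mul (D_mu' _ _)).mul (D_eta M _)).mono (by omega)
  rw [← e3, e4] at hG
  have := hG.cancel_int (d0 := 24 * p - 3) hF (by omega)
  rw [← e4, e3] at this
  rw [e1, zero_sub, Lam_neg, Lam_of_D hM _ _ this, neg_zero]

theorem nonvanishing (hM : M + 1 = 4 * p) :
    Lam p M (B p (fa M M) (fb M M) (fb M M) (fx M M)) ≠ 0 := by
  classical
  let es : Fin 4 →₀ ℕ := Finsupp.equivFunOnFinite.symm ![0, 4 * p, 4 * p, 4 * p]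
  have hc : MvPolynomial.coeff es (Dl ^ (2 * p)) ≠ 0 :=
    dyson_ne p es (by simp [es]) (by simp [es]) (by simp [es]) (by simp [es])
  set c := MvPolynomial.coeff es (Dl ^ (2 * p)) with hcdef
  have h3 : ∀ f : ℕ → ℚ⟦X⟧, B p f (fb M M) (fb M M) (fb M M)
      = c • (f 0 * X ^ (24 * p - 3)) := by
    intro f
    rw [B_eq, sum_eq_single es]
    · have a1 : fb M M (4 * p) = X ^ (2 * (M + 1) - 1) := by
        rw [fb_nat, ← be_top]; congr 2; omega
      have b0 : es 0 = 0 := by simp [es]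
      have b1 : es 1 = 4 * p := by simp [es]
      have b2 : es 2 = 4 * p := by simp [es]
      have b3 : es 3 = 4 * p := by simp [es]
      rw [b0, b1, b2, b3, a1, show 24 * p - 3 = (2 * (M + 1) - 1) + (2 * (M + 1) - 1)
        + (2 * (M + 1) - 1) by omega, pow_add, pow_add]
      congr 1; ring
    · intro e he hne
      obtain ⟨h0, h1, h2, h3, h4, h5, h6, h7⟩ := supp_facts p e he
      rw [fb_nat, fb_nat, fb_nat]
      by_cases a1 : e 1 < 4 * p
      · rw [be_nat_zero _ (M + e 1) (by omega)]; simp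
      by_cases a2 : e 2 < 4 * p
      · rw [be_nat_zero _ (M + e 2) (by omega)]; simp
      by_cases a3 : e 3 < 4 * p
      · rw [be_nat_zero _ (M + e 3) (by omega)]; simp
      exfalso
      apply hne
      ext i
      fin_cases i <;> simp [es] <;> omega
    · intro h
      exact absurd (MvPolynomial.mem_support_iff.2 hc) h
  have e1 := split1 hM M
  have e2 := split2 hM M
  have b0 : fb M M 0 = 0 := by rw [fb_nat, be_nat_zero _ _ (by omega)]
  rw [h3] at e1 e2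
  rw [h3, b0, zero_mul, smul_zero] at e2
  -- splitting of the polynomial
  let l1 : ℚ⟦X⟧ := ∑ k ∈ range (2 * p), ((M.choose k : ℚ) ^ 2) • z k
  let l2 : ℚ⟦X⟧ := ∑ k ∈ range (2 * p), ((M.choose (2 * p + k) : ℚ) ^ 2) • z k
  have ha : fa M M 0 = l1 + z ((2 * p : ℕ) : ℚ) * l2 := by
    rw [fa, Nat.cast_zero, add_zero, al_top, show M + 1 = 2 * p + 2 * p by omega, sum_range_add,
      mul_sum]
    congr 1
    refine sum_congr rfl fun k _ => ?_
    rw [mul_smul_comm, ← z_add, Nat.cast_add]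
  have hl1 : D (2 * p - 1) l1 :=
    D_sum _ fun k hk => ((D_z k).mono (by have := mem_range.1 hk; omega)).smul _
  have hl2 : D (2 * p - 1) l2 :=
    D_sum _ fun k hk => ((D_z k).mono (by have := mem_range.1 hk; omega)).smul _
  have hz : (6 * p - 2 - 2 * (M : ℚ)) = -((2 * p : ℕ) : ℚ) := by rw [castM hM]; push_cast; ring
  have hzz : z ((2 * p : ℕ) : ℚ) * z (-((2 * p : ℕ) : ℚ)) = 1 := by
    rw [← z_add, add_neg_cancel, z_zero]
  have hG := G2_deg hM M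
  have hF := F1_deg hM M
  rw [hz] at hG
  set F1 := B p (fa M M) (fb M M) (fb M M) (fa M M)
  set F2 := B p (fx M M) (fb M M) (fb M M) (fx M M)
  set Dd := B p (fa M M) (fb M M) (fb M M) (fx M M)
  set Z := z (-((2 * p : ℕ) : ℚ))
  set Y := z ((2 * p : ℕ) : ℚ)
  rw [ha] at e1 e2
  have k1 : D (24 * p - 3) (Z * F2 + (2 * c) • (l2 * X ^ (24 * p - 3))) := by
    refine D.cancel (j := 2 * p) (d := 60 * p)
      ((hG.mono (by omega)).add (((hl2.mul (D_X_pow _)).smul _).mono (by omega))) ?_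
    have : Y * (Z * F2 + (2 * c) • (l2 * X ^ (24 * p - 3)))
        = F1 + (-(2 * c)) • (l1 * X ^ (24 * p - 3)) := by
      simp only [smul_eq_C_mul, map_neg, map_mul, map_ofNat] at e1 e2 ⊢
      linear_combination F2 * hzz + e2 - e1
    rw [this]
    exact (hF.mono (by omega)).add (((hl1.mul (D_X_pow _)).smul _).mono (by omega))
  have k2 : Z * Dd = c • ((l2 - Z * l1) * X ^ (24 * p - 3))
      - (Z * F2 + (2 * c) • (l2 * X ^ (24 * p - 3))) := by
    simp only [smul_eq_C_mul, map_mul, map_ofNat] at e2 ⊢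
    linear_combination Z * e2 - (C c * l2 * X ^ (24 * p - 3)) * hzz
  rw [Lam, hz, k2, map_sub, k1 _ (by omega), sub_zero, map_smul,
    show 24 * p - 2 = 1 + (24 * p - 3) by omega, coeff_mul_X_pow, smul_eq_mul]
  refine mul_ne_zero hc (ne_of_gt ?_)
  have c2 : 0 ≤ coeff 1 l2 := by
    simp only [l2, map_sum, map_smul, coeff_z, Ring.choose_one_right, smul_eq_mul]
    exact sum_nonneg fun k _ => by positivity
  have c1 : coeff 1 (Z * l1) < 0 := by
    simp only [l1, mul_sum, mul_smul_comm, Z, ← z_add, map_sum, map_smul, coeff_z,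
      Ring.choose_one_right, smul_eq_mul]
    refine sum_neg (fun k hk => ?_) ⟨0, mem_range.2 (by omega)⟩
    have hk' := mem_range.1 hk
    have h1 : (0 : ℚ) < (M.choose k : ℚ) := by exact_mod_cast Nat.choose_pos (by omega)
    have h2 : (k : ℚ) < ((2 * p : ℕ) : ℚ) := by exact_mod_cast hk'
    exact mul_neg_of_pos_of_neg (by positivity) (by linarith)
  rw [map_sub]
  linarith

end Pool.Agent.Work.MP_d8cfe3_al
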