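import Pool.Agent.Work.MP_d8cfe3_al.Defs
import Pool.Agent.Work.MP_d8cfe3_al.Roots

namespace Pool.Agent.Work.MP_d8cfe3_al

open Finset

theorem vdm_eq (p : ℕ) : vdm p = Dl ^ (2 * p) := by
  have h0 : Ioi (0 : Fin 4) = {1, 2, 3} := by decide
  have h1 : Ioi (1 : Fin 4) = {2, 3} := by decide
  have h2 : Ioi (2 : Fin 4) = {3} := by decide
  have h3 : Ioi (3 : Fin 4) = ∅ := by decide
  rw [vdm, Fin.prod_univ_four, h0, h1, h2, h3, prod_insert (by decide), prod_insert (by decide),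
    prod_insert (by decide), prod_singleton, prod_singleton, prod_singleton, prod_empty, Dl]
  simp only [mul_pow, mul_assoc, mul_one]

theorem choose_eq_prod (u : ℚ) (k : ℕ) :
    Ring.choose u k = (k.factorial : ℚ)⁻¹ * ∏ i ∈ range k, (u - i) := by
  induction k with
  | zero => simp
  | succ k ih =>
    have h := choose_mul_choose u (Nat.le_succ k)
    rw [show k.succ - k = 1 by omega, Ring.choose_one_right, Nat.succ_eq_add_one,
      Nat.choose_succ_self_right, ih] at h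
    have hk : ((k + 1 : ℕ) : ℚ) ≠ 0 := by positivity
    have hf : (k.factorial : ℚ) ≠ 0 := by positivity
    rw [prod_range_succ, Nat.factorial_succ, Nat.cast_mul]
    field_simp
    field_simp at h
    linarith

theorem eval_binom (t : ℚ) (u : Polynomial ℚ) (k : ℕ) :
    (binom u k).eval t = Ring.choose (u.eval t) k := by
  simp [binom, choose_eq_prod, Polynomial.eval_prod]

theorem natDegree_binom (u : Polynomial ℚ) (k d : ℕ) (h : u.natDegree ≤ d) :
    (binom u k).natDegree ≤ k * d := by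
  refine (Polynomial.natDegree_C_mul_le _ _).trans ((Polynomial.natDegree_prod_le _ _).trans ?_)
  refine (sum_le_card_nsmul _ _ d fun i _ => ?_).trans (by simp)
  refine (Polynomial.natDegree_sub_le _ _).trans ?_
  simpa using h

theorem H_X_pow (w : ℕ → ℚ) (e : ℕ) (g : PowerSeries ℚ) :
    H w (PowerSeries.X ^ e * g) = H (fun m => w (m + e)) g * PowerSeries.X ^ e := by
  ext m
  rw [coeff_H, PowerSeries.coeff_X_pow_mul', PowerSeries.coeff_mul_X_pow']
  split_ifs with h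
  · rw [coeff_H, Nat.sub_add_cancel h]
  · simp

theorem Lam_B_eq {p : ℕ} (hp : 1 ≤ p) (t : ℚ) (w0 w1 w2 w3 : ℕ → ℚ) :
    Lam p t (B p (fun e => H w0 (z (t + e))) (fun e => H w1 (z (t + e)))
      (fun e => H w2 (z (t + e))) (fun e => H w3 (z (t + e)))) =
    ∑ x ∈ (Dl ^ (2 * p)).support ×ˢ finsuppAntidiag (univ : Finset (Fin 5)) (12 * p - 2),
      MvPolynomial.coeff x.1 (Dl ^ (2 * p)) * (Ring.choose (6 * p - 2 - 2 * t) (x.2 0) *
        (w0 (x.2 1 + x.1 0) * Ring.choose t (x.2 1)) * (w1 (x.2 2 + x.1 1) * Ring.choose t (x.2 2))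
        * (w2 (x.2 3 + x.1 2) * Ring.choose t (x.2 3))
        * (w3 (x.2 4 + x.1 3) * Ring.choose t (x.2 4))) := by
  simp only [← H_shift]
  rw [← B_shift p (fun j => H w0 (PowerSeries.X ^ j * z t)) (fun j => H w1 (PowerSeries.X ^ j * z t))
    (fun j => H w2 (PowerSeries.X ^ j * z t)) (fun j => H w3 (PowerSeries.X ^ j * z t)),
    B_eq, Lam, mul_sum, map_sum, sum_product]
  refine sum_congr rfl fun e he => ?_
  have h0 := (supp_facts p e he).1
  dsimp only
  rw [mul_smul_comm, map_smul, smul_eq_mul, ← mul_sum]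
  congr 1
  let f : Fin 5 → PowerSeries ℚ := ![z (6 * p - 2 - 2 * t), H (fun m => w0 (m + e 0)) (z t),
    H (fun m => w1 (m + e 1)) (z t), H (fun m => w2 (m + e 2)) (z t),
    H (fun m => w3 (m + e 3)) (z t)]
  have e1 : z (6 * p - 2 - 2 * t) * (H w0 (PowerSeries.X ^ e 0 * z t)
      * H w1 (PowerSeries.X ^ e 1 * z t) * H w2 (PowerSeries.X ^ e 2 * z t)
      * H w3 (PowerSeries.X ^ e 3 * z t)) = (∏ j, f j) * PowerSeries.X ^ (12 * p) := by
    rw [H_X_pow, H_X_pow, H_X_pow, H_X_pow, ← h0, Fin.prod_univ_five]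
    simp only [f, Matrix.cons_val]
    ring
  rw [e1, show 24 * p - 2 = (12 * p - 2) + 12 * p by omega, PowerSeries.coeff_mul_X_pow,
    PowerSeries.coeff_prod]
  refine sum_congr rfl fun m _ => ?_
  rw [Fin.prod_univ_five]
  simp only [f, Matrix.cons_val, coeff_H, coeff_z]

/-- Both variants at once. -/
noncomputable def gterm (s : Bool) (p : ℕ) : Idx → Polynomial ℚ := fun ⟨b, a, k, n, e⟩ =>
  if (8 * p - 3 + b + (-4 * p - k 0) + (if s then (k 1 : ℤ) else (-4 * p - k 1)) + k 2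
      + (n - 4 * p + 1) : ℤ) = -1
    ∧ (-4 * p + a 0 + k 0 + e 0 : ℤ) = -1
    ∧ (-4 * p + a 1 + (if s then (-4 * p - k 1 : ℤ) else k 1) + e 1 : ℤ) = -1
    ∧ (-4 * p + a 2 + (-4 * p - k 2) + e 2 : ℤ) = -1
    ∧ (-4 * p + a 3 + e 3 + (-n - 1) : ℤ) = -1
  then coef p ⟨b, a, k, n, e⟩ else 0

theorem gterm_true (p : ℕ) : gterm true p = termSwapped p := rfl
theorem gterm_false (p : ℕ) : gterm false p = termPrinted p := rfl

/-- Parametrisation of the contributing indices. -/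
def phi (s : Bool) (p : ℕ) (x : (Fin 4 →₀ ℕ) × (Fin 5 →₀ ℕ)) : Idx :=
  ⟨x.2 0, fun i => x.2 i.succ,
    ![4 * p - 1 - (x.2 1 + x.1 0),
      if s then x.2 2 + x.1 1 - (2 * (4 * p) - 1) else 4 * p - 1 - (x.2 2 + x.1 1),
      x.2 3 + x.1 2 - (2 * (4 * p) - 1)],
    (x.2 4 + x.1 3 : ℤ) - 4 * p, x.1⟩

theorem phi_inj (s : Bool) (p : ℕ) : Function.Injective (phi s p) := by
  intro x y h
  simp only [phi, Prod.mk.injEq] at h
  refine Prod.ext h.2.2.2.2 ?_
  ext i
  refine Fin.cases h.1 (fun j => congrFun h.2.1 j) i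

theorem gterm_ne {s : Bool} {p : ℕ} {b : ℕ} {a : Fin 4 → ℕ} {k : Fin 3 → ℕ} {n : ℤ}
    {e : Fin 4 →₀ ℕ} (h : gterm s p ⟨b, a, k, n, e⟩ ≠ 0) :
    ((8 * p - 3 + b + (-4 * p - k 0) + (if s then (k 1 : ℤ) else (-4 * p - k 1)) + k 2
      + (n - 4 * p + 1) : ℤ) = -1
    ∧ (-4 * p + a 0 + k 0 + e 0 : ℤ) = -1
    ∧ (-4 * p + a 1 + (if s then (-4 * p - k 1 : ℤ) else k 1) + e 1 : ℤ) = -1
    ∧ (-4 * p + a 2 + (-4 * p - k 2) + e 2 : ℤ) = -1
    ∧ (-4 * p + a 3 + e 3 + (-n - 1) : ℤ) = -1) ∧ e ∈ (Dl ^ (2 * p)).support ∧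
    gterm s p ⟨b, a, k, n, e⟩ = coef p ⟨b, a, k, n, e⟩ := by
  simp only [gterm] at h ⊢
  by_cases hc : ((8 * p - 3 + b + (-4 * p - k 0) + (if s then (k 1 : ℤ) else (-4 * p - k 1)) + k 2
      + (n - 4 * p + 1) : ℤ) = -1
    ∧ (-4 * p + a 0 + k 0 + e 0 : ℤ) = -1
    ∧ (-4 * p + a 1 + (if s then (-4 * p - k 1 : ℤ) else k 1) + e 1 : ℤ) = -1
    ∧ (-4 * p + a 2 + (-4 * p - k 2) + e 2 : ℤ) = -1
    ∧ (-4 * p + a 3 + e 3 + (-n - 1) : ℤ) = -1)
  · rw [if_pos hc] at h ⊢
    refine ⟨hc, ?_, rfl⟩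
    rw [MvPolynomial.mem_support_iff, ← vdm_eq]
    intro h0
    apply h
    simp [coef, h0]
  · rw [if_neg hc] at h
    exact absurd rfl h

open Classical in
theorem support_subset (s : Bool) (p : ℕ) (hp : 1 ≤ p) : Function.support (gterm s p) ⊆
    (((Dl ^ (2 * p)).support ×ˢ finsuppAntidiag (univ : Finset (Fin 5)) (12 * p - 2)).image
      (phi s p) : Finset Idx) := by
  rintro ⟨b, a, k, n, e⟩ h
  obtain ⟨⟨c0, c1, c2, c3, c4⟩, he, -⟩ := gterm_ne h
  have h0 := (supp_facts p e he).1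
  simp only [coe_image, Set.mem_image, mem_coe, mem_product, mem_finsuppAntidiag]
  refine ⟨(e, Finsupp.equivFunOnFinite.symm ![b, a 0, a 1, a 2, a 3]), ⟨he, ?_, subset_univ _⟩, ?_⟩
  · simp [Fin.sum_univ_five]
    cases s <;> simp at c0 c2 <;> omega
  · simp only [phi, Prod.mk.injEq]
    refine ⟨by simp, ?_, ?_, ?_, trivial⟩
    · funext i; fin_cases i <;> simp
    · funext i
      fin_cases i
      · simp; omega
      · cases s <;> simp at c2 ⊢ <;> omega
      · simp; omega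
    · simp; omega

theorem support_finite (s : Bool) (p : ℕ) (hp : 1 ≤ p) : (Function.support (gterm s p)).Finite :=
  (Finset.finite_toSet _).subset (support_subset s p hp)

theorem eval_coef (p : ℕ) (t : ℚ) (b : ℕ) (a : Fin 4 → ℕ) (k : Fin 3 → ℕ) (n : ℤ)
    (e : Fin 4 →₀ ℕ) : (coef p ⟨b, a, k, n, e⟩).eval t =
    MvPolynomial.coeff e (Dl ^ (2 * p)) * (Ring.choose (6 * p - 2 - 2 * t) b *
      ((Ring.choose (-((4 * p : ℕ) : ℚ)) (k 0) * (-1) ^ (k 0)) * Ring.choose t (a 0)) *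
      ((Ring.choose (-((4 * p : ℕ) : ℚ)) (k 1) * (-1) ^ (k 1)) * Ring.choose t (a 1)) *
      ((Ring.choose (-((4 * p : ℕ) : ℚ)) (k 2) * (-1) ^ (k 2)) * Ring.choose t (a 2)) *
      (Ring.choose (n : ℚ) (4 * p - 1) * Ring.choose t (a 3))) := by
  simp [coef, Fin.prod_univ_four, Fin.prod_univ_three, eval_binom, vdm_eq]
  ring

theorem eval_L (s : Bool) {p M : ℕ} (hM : M + 1 = 4 * p) (t : ℚ) :
    (∑ᶠ i, gterm s p i).eval t =
      Lam p t (B p (fa M t) (if s then fb M t else fa M t) (fb M t) (fx M t)) := by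
  classical
  have hp : 1 ≤ p := by omega
  have key := Lam_B_eq hp t (wA (M + 1)) (if s then wB (M + 1) else wA (M + 1)) (wB (M + 1))
    (wX (M + 1))
  have e1 : (fun e : ℕ => H (if s then wB (M + 1) else wA (M + 1)) (z (t + e)))
      = if s then fb M t else fa M t := by
    cases s <;> rfl
  rw [e1] at key
  refine Eq.trans ?_ key.symm
  rw [finsum_eq_sum_of_support_subset _ (support_subset s p hp),
    sum_image (fun x _ y _ h => phi_inj s p h), Polynomial.eval_finsetSum]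
  refine sum_congr rfl fun x hx => ?_
  obtain ⟨e, m⟩ := x
  simp only [mem_product, mem_finsuppAntidiag, Fin.sum_univ_five] at hx
  have h0 := (supp_facts p e hx.1).1
  have hm := hx.2.1
  rw [hM]
  simp only [phi, gterm]
  by_cases a0 : m 1 + e 0 < 4 * p
  swap
  · rw [if_neg, wA, if_neg a0]
    · simp
    · simp; omega
  by_cases a2 : 2 * (4 * p) - 1 ≤ m 3 + e 2
  swap
  · rw [if_neg, wB, if_neg a2]
    · simp
    · simp; omega
  cases s
  · by_cases a1 : m 2 + e 1 < 4 * p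
    · rw [if_pos, eval_coef]
      · simp [wA, wB, wX, a0, a1, a2]
      · simp; omega
    · rw [if_neg]
      · simp [wA, a1]
      · simp; omega
  · by_cases a1 : 2 * (4 * p) - 1 ≤ m 2 + e 1
    · rw [if_pos, eval_coef]
      · simp [wA, wB, wX, a0, a1, a2]
      · simp; omega
    · rw [if_neg]
      · simp [wB, a1]
      · simp; omega

theorem natDegree_L (s : Bool) (p : ℕ) (hp : 1 ≤ p) :
    (∑ᶠ i, gterm s p i).natDegree ≤ 12 * p - 2 := by
  classical
  rw [finsum_eq_sum_of_support_subset _ (support_subset s p hp)]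
  refine Polynomial.natDegree_sum_le_of_forall_le _ _ ?_
  rintro ⟨b, a, k, n, e⟩ -
  by_cases h : gterm s p ⟨b, a, k, n, e⟩ = 0
  · simp [h]
  obtain ⟨⟨c0, c1, c2, c3, c4⟩, he, heq⟩ := gterm_ne h
  have h0 := (supp_facts p e he).1
  rw [heq, coef]
  have d1 : (binom (6 * (p : Polynomial ℚ) - 2 - 2 * Polynomial.X) b).natDegree ≤ b * 1 :=
    natDegree_binom _ _ _ (by compute_degree)
  have d2 : (∏ i, binom Polynomial.X (a i)).natDegree ≤ a 0 + a 1 + a 2 + a 3 := by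
    refine (Polynomial.natDegree_prod_le _ _).trans ?_
    rw [← Fin.sum_univ_four]
    exact sum_le_sum fun i _ => by simpa using natDegree_binom Polynomial.X (a i) 1 (by simp)
  have d3 : (∏ j, binom (-(4 * (p : Polynomial ℚ))) (k j) * (-1) ^ (k j)).natDegree ≤ 0 := by
    refine (Polynomial.natDegree_prod_le _ _).trans (le_of_eq (sum_eq_zero fun j _ => ?_))
    have a1 := natDegree_binom (-(4 * (p : Polynomial ℚ))) (k j) 0 (by compute_degree)
    have a2 : ((-1 : Polynomial ℚ) ^ (k j)).natDegree ≤ 0 := by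
      refine Polynomial.natDegree_pow_le.trans (by simp)
    have := Polynomial.natDegree_mul_le (p := binom (-(4 * (p : Polynomial ℚ))) (k j))
      (q := (-1) ^ (k j))
    omega
  have d4 := natDegree_binom (n : Polynomial ℚ) (4 * p - 1) 0 (by simp)
  have d5 : (Polynomial.C (MvPolynomial.coeff e (vdm p))).natDegree = 0 :=
    Polynomial.natDegree_C _
  refine Polynomial.natDegree_mul_le.trans ?_
  refine (add_le_add Polynomial.natDegree_mul_le le_rfl).trans ?_
  refine (add_le_add (add_le_add Polynomial.natDegree_mul_le le_rfl) le_rfl).trans ?_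
  refine (add_le_add (add_le_add (add_le_add Polynomial.natDegree_mul_le le_rfl) le_rfl)
    le_rfl).trans ?_
  cases s <;> simp at c0 c2 <;> omega

theorem dvd_binom (r a : ℕ) (h : r ≤ a) :
    ∏ i ∈ range r, (Polynomial.X - (i : Polynomial ℚ)) ∣ binom Polynomial.X a :=
  Dvd.dvd.mul_left (prod_dvd_prod_of_subset _ _ _ (range_subset_range.2 h)) _

theorem sq_dvd_L (p : ℕ) (hp : 1 ≤ p) :
    (∏ i ∈ range (2 * p - 1), (Polynomial.X - (i : Polynomial ℚ))) ^ 2 ∣ ∑ᶠ i, gterm true p i := by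
  classical
  rw [finsum_eq_sum_of_support_subset _ (support_subset true p hp)]
  refine dvd_sum ?_
  rintro ⟨b, a, k, n, e⟩ -
  by_cases h : gterm true p ⟨b, a, k, n, e⟩ = 0
  · simp [h]
  obtain ⟨⟨c0, c1, c2, c3, c4⟩, he, heq⟩ := gterm_ne h
  obtain ⟨h0, h1, h2, h3, h4, h5, h6, h7⟩ := supp_facts p e he
  simp at c2
  rw [heq, coef]
  refine Dvd.dvd.mul_right (Dvd.dvd.mul_right (Dvd.dvd.mul_right (Dvd.dvd.mul_left ?_ _) _) _) _
  rw [Fin.prod_univ_four, sq, mul_assoc (binom _ (a 0))]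
  exact Dvd.dvd.mul_right (Dvd.dvd.mul_left
    (mul_dvd_mul (dvd_binom _ _ (by omega)) (dvd_binom _ _ (by omega))) _) _

end Pool.Agent.Work.MP_d8cfe3_al
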