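import Mathlib.Algebra.MvPolynomial.CommRing
import Mathlib.Algebra.Polynomial.Basic
import Mathlib.Algebra.BigOperators.Finprod
import Mathlib.Algebra.Order.Field.Rat
import Mathlib.Order.Interval.Finset.Fin

namespace Pool.Agent.Work.MP_d8cfe3_al

open Polynomial

/-- The binomial coefficient `u (u-1) ... (u-k+1) / k!` for a polynomial `u` in `t`. -/
noncomputable def binom (u : ℚ[X]) (k : ℕ) : ℚ[X] :=
  C ((k.factorial : ℚ)⁻¹) * ∏ i ∈ Finset.range k, (u - (i : ℚ[X]))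

/-- The polynomial `∏_{i<j} (x_i - x_j)^(2p)` in the four variables `x_1, ..., x_4`
(indexed by `0, 1, 2, 3`). -/
noncomputable def vdm (p : ℕ) : MvPolynomial (Fin 4) ℚ :=
  ∏ i : Fin 4, ∏ j ∈ Finset.Ioi i, (MvPolynomial.X i - MvPolynomial.X j) ^ (2 * p)

/-- A choice of one term from every factor: `b` from `(1+x_0)^(6p-2-2t)`, `a i` from
`(1+x_{i+1})^t`, `k j` from the three factors of exponent `-4p`, `n` from the delta function
derivative and the exponent vector `e` from the product of differences. -/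
abbrev Idx : Type := ℕ × (Fin 4 → ℕ) × (Fin 3 → ℕ) × ℤ × (Fin 4 →₀ ℕ)

/-- The product of the coefficients of the chosen terms. -/
noncomputable def coef (p : ℕ) : Idx → ℚ[X] := fun ⟨b, a, k, n, e⟩ =>
  binom (6 * (p : ℚ[X]) - 2 - 2 * X) b * (∏ i, binom X (a i)) *
    (∏ j, binom (-(4 * (p : ℚ[X]))) (k j) * (-1) ^ (k j)) *
    C (MvPolynomial.coeff e (vdm p)) * binom (n : ℚ[X]) (4 * p - 1)

/-- Contribution of a choice of terms to the coefficient of `(x_0 x_1 x_2 x_3 x_4)⁻¹` for the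
expression as printed, with the factors `(x_0-x_1)^(-4p) (x_0-x_2)^(-4p) (x_3-x_0)^(-4p)`.
The five equations say that the total exponents of `x_0, ..., x_4` are `-1`. -/
noncomputable def termPrinted (p : ℕ) : Idx → ℚ[X] := fun ⟨b, a, k, n, e⟩ =>
  if (8 * p - 3 + b + (-4 * p - k 0) + (-4 * p - k 1) + k 2 + (n - 4 * p + 1) : ℤ) = -1
    ∧ (-4 * p + a 0 + k 0 + e 0 : ℤ) = -1
    ∧ (-4 * p + a 1 + k 1 + e 1 : ℤ) = -1
    ∧ (-4 * p + a 2 + (-4 * p - k 2) + e 2 : ℤ) = -1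
    ∧ (-4 * p + a 3 + e 3 + (-n - 1) : ℤ) = -1
  then coef p ⟨b, a, k, n, e⟩ else 0

/-- The same for the expression with the factors
`(x_0-x_1)^(-4p) (x_2-x_0)^(-4p) (x_3-x_0)^(-4p)`. -/
noncomputable def termSwapped (p : ℕ) : Idx → ℚ[X] := fun ⟨b, a, k, n, e⟩ =>
  if (8 * p - 3 + b + (-4 * p - k 0) + k 1 + k 2 + (n - 4 * p + 1) : ℤ) = -1
    ∧ (-4 * p + a 0 + k 0 + e 0 : ℤ) = -1
    ∧ (-4 * p + a 1 + (-4 * p - k 1) + e 1 : ℤ) = -1
    ∧ (-4 * p + a 2 + (-4 * p - k 2) + e 2 : ℤ) = -1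
    ∧ (-4 * p + a 3 + e 3 + (-n - 1) : ℤ) = -1
  then coef p ⟨b, a, k, n, e⟩ else 0

end Pool.Agent.Work.MP_d8cfe3_al
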