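import Pool.Agent.Work.MP_d8cfe3_al.Bridge

namespace Pool.Agent.Work.MP_d8cfe3_al

open Finset Polynomial

theorem dvd_of_roots (f : ℕ → ℚ) (hf : Function.Injective f) (n : ℕ) (P : ℚ[X])
    (h : ∀ j < n, P.eval (f j) = 0) : ∏ j ∈ range n, (X - C (f j)) ∣ P := by
  refine Finset.prod_dvd_of_coprime ?_ ?_
  · intro i _ j _ hij
    exact isCoprime_X_sub_C_of_isUnit_sub (sub_ne_zero.2 (hf.ne hij)).isUnit
  · intro j hj
    exact dvd_iff_isRoot.2 (h j (mem_range.1 hj))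

theorem eval_lin_ne (f : ℕ → ℚ) (n : ℕ) (t : ℚ) (h : ∀ j < n, t ≠ f j) :
    (∏ j ∈ range n, (X - C (f j))).eval t ≠ 0 := by
  rw [eval_prod]
  exact prod_ne_zero_iff.2 fun j hj => by simpa [sub_eq_zero] using h j (mem_range.1 hj)

theorem natDegree_lin (f : ℕ → ℚ) (n : ℕ) : (∏ j ∈ range n, (X - C (f j))).natDegree = n := by
  rw [natDegree_prod_of_monic _ _ (fun j _ => monic_X_sub_C _)]
  simp

theorem monic_lin (f : ℕ → ℚ) (n : ℕ) : (∏ j ∈ range n, (X - C (f j))).Monic :=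
  monic_prod_of_monic _ _ (fun _ _ => monic_X_sub_C _)

theorem half_ne_int (j p : ℕ) (m : ℤ) : (m : ℚ) ≠ (j : ℚ) - p - 1 / 2 := by
  intro h
  have h2 : ((2 * m : ℤ) : ℚ) = ((2 * j - 2 * p - 1 : ℤ) : ℚ) := by push_cast; linarith
  have h3 : 2 * m = 2 * j - 2 * p - 1 := by exact_mod_cast h2
  omega

theorem swapped (p : ℕ) (hp : 1 ≤ p) : ∃ A : ℚ, A ≠ 0 ∧
    ∑ᶠ i, gterm true p i = C A * binom (X + (p : ℚ[X]) + C (1 / 2)) (4 * p) *
      binom (X + 2 * (p : ℚ[X])) (4 * p - 1) * binom X (4 * p - 1) := by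
  obtain ⟨M, hM⟩ : ∃ M, M + 1 = 4 * p := ⟨4 * p - 1, by omega⟩
  have hev : ∀ t, (∑ᶠ i, gterm true p i).eval t
      = Lam p t (B p (fa M t) (fb M t) (fb M t) (fx M t)) := fun t => eval_L true hM t
  obtain ⟨Q0, hQ0⟩ := sq_dvd_L p hp
  have hdeg := natDegree_L true p hp
  set L := ∑ᶠ i, gterm true p i with hL
  let f0 : ℕ → ℚ := fun j => j
  let f1 : ℕ → ℚ := fun j => j - p - 1 / 2
  let f2 : ℕ → ℚ := fun j => j - 2 * p
  let f3 : ℕ → ℚ := fun j => ((2 * p - 1 + j : ℕ) : ℚ)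
  let P0 : ℚ[X] := ∏ j ∈ range (2 * p - 1), (X - C (f0 j))
  let P1 : ℚ[X] := ∏ j ∈ range (4 * p), (X - C (f1 j))
  let P2 : ℚ[X] := ∏ j ∈ range (2 * p), (X - C (f2 j))
  let P3 : ℚ[X] := ∏ j ∈ range (2 * p), (X - C (f3 j))
  have hQ0' : L = P0 ^ 2 * Q0 := by
    rw [hQ0]; simp [P0, f0]
  have r0 : ∀ t, L.eval t = 0 → (∀ j < 2 * p - 1, t ≠ f0 j) → Q0.eval t = 0 := by
    intro t h1 h2
    rw [hQ0', eval_mul, eval_pow] at h1
    exact (mul_eq_zero.1 h1).resolve_left (pow_ne_zero _ (eval_lin_ne f0 _ t h2))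
  obtain ⟨Q1, hQ1⟩ : P1 ∣ Q0 := by
    refine dvd_of_roots f1 (fun i j h => ?_) _ _ fun j hj => r0 _ ?_ ?_
    · simpa [f1] using h
    · rw [hev]; exact root_half hM j hj _ rfl
    · intro i _ h
      exact half_ne_int j p i (by simpa [f0, f1] using h.symm)
  have r1 : ∀ m : ℤ, L.eval (m : ℚ) = 0 → (∀ j < 2 * p - 1, (m : ℚ) ≠ f0 j) →
      Q1.eval (m : ℚ) = 0 := by
    intro m h1 h2
    have := r0 _ h1 h2
    rw [hQ1, eval_mul] at this
    exact (mul_eq_zero.1 this).resolve_left (eval_lin_ne f1 _ _ fun j _ => half_ne_int j p m)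
  obtain ⟨Q2, hQ2⟩ : P2 ∣ Q1 := by
    refine dvd_of_roots f2 (fun i j h => ?_) _ _ fun j hj => ?_
    · simpa [f2] using h
    · have e : f2 j = ((j - 2 * p : ℤ) : ℚ) := by simp [f2]
      rw [e]
      refine r1 _ ?_ ?_
      · rw [hev]
        refine root_neg hM (2 * p - j) (by omega) (by omega) _ ?_
        rw [Nat.cast_sub hj.le]; push_cast; ring
      · intro i _ h
        have : (j - 2 * p : ℤ) = i := by exact_mod_cast (show ((j - 2 * p : ℤ) : ℚ) = (i : ℤ) from h)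
        omega
  obtain ⟨Q3, hQ3⟩ : P3 ∣ Q2 := by
    refine dvd_of_roots f3 (fun i j h => ?_) _ _ fun j hj => ?_
    · have : 2 * p - 1 + i = 2 * p - 1 + j := Nat.cast_injective (R := ℚ) h
      omega
    · have e : f3 j = (((2 * p - 1 + j : ℕ) : ℤ) : ℚ) := by simp [f3]
      have h1 : Q1.eval (f3 j) = 0 := by
        rw [e]
        refine r1 _ ?_ ?_
        · rw [hev, Int.cast_natCast]
          exact root_pos hM _ (by omega)
        · intro i _ h
          rw [Int.cast_natCast] at h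
          have : 2 * p - 1 + j = i := Nat.cast_injective (R := ℚ) h
          omega
      rw [hQ2, eval_mul] at h1
      refine (mul_eq_zero.1 h1).resolve_left (eval_lin_ne f2 _ _ fun i hi h => ?_)
      have : ((2 * p - 1 + j : ℕ) : ℤ) = i - 2 * p := by
        have h' : (((2 * p - 1 + j : ℕ) : ℤ) : ℚ) = ((i - 2 * p : ℤ) : ℚ) := by
          rw [← e, h]; simp [f2]
        exact_mod_cast h'
      omega
  have hLf : L = (P0 ^ 2 * P1 * P2 * P3) * Q3 := by rw [hQ0', hQ1, hQ2, hQ3]; ring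
  have hL0 : L ≠ 0 := by
    intro h
    have := nonvanishing hM
    rw [← hev, h] at this
    simp at this
  have hQ3ne : Q3 ≠ 0 := by rintro rfl; simp [hLf] at hL0
  have hmon : (P0 ^ 2 * P1 * P2 * P3).Monic :=
    ((((monic_lin _ _).pow 2).mul (monic_lin _ _)).mul (monic_lin _ _)).mul (monic_lin _ _)
  have hd : (P0 ^ 2 * P1 * P2 * P3).natDegree = 12 * p - 2 := by
    rw [Monic.natDegree_mul ((((monic_lin _ _).pow 2).mul (monic_lin _ _)).mul (monic_lin _ _))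
      (monic_lin _ _), Monic.natDegree_mul (((monic_lin _ _).pow 2).mul (monic_lin _ _))
      (monic_lin _ _), Monic.natDegree_mul ((monic_lin _ _).pow 2) (monic_lin _ _),
      (monic_lin _ _).natDegree_pow, natDegree_lin, natDegree_lin, natDegree_lin, natDegree_lin]
    omega
  rw [hLf, natDegree_mul hmon.ne_zero hQ3ne, hd] at hdeg
  obtain ⟨a, ha⟩ : ∃ a, Q3 = C a := ⟨_, eq_C_of_natDegree_eq_zero (by omega)⟩
  have ha0 : a ≠ 0 := by rintro rfl; simp [ha] at hQ3ne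
  have b1 : binom (X + (p : ℚ[X]) + C (1 / 2)) (4 * p) = C (((4 * p).factorial : ℚ)⁻¹) * P1 := by
    rw [binom]; congr 1
    refine prod_congr rfl fun j _ => ?_
    simp only [f1, map_sub, map_natCast]; ring
  have b2 : binom (X + 2 * (p : ℚ[X])) (4 * p - 1)
      = C (((4 * p - 1).factorial : ℚ)⁻¹) * (P2 * P0) := by
    rw [binom]; congr 1
    rw [show 4 * p - 1 = 2 * p + (2 * p - 1) by omega, prod_range_add]
    congr 1
    · refine prod_congr rfl fun j _ => ?_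
      simp only [f2, map_sub, map_natCast, map_mul, map_ofNat]; ring
    · refine prod_congr rfl fun j _ => ?_
      simp only [f0, map_natCast]; push_cast; ring
  have b3 : binom X (4 * p - 1) = C (((4 * p - 1).factorial : ℚ)⁻¹) * (P0 * P3) := by
    rw [binom]; congr 1
    rw [show 4 * p - 1 = (2 * p - 1) + 2 * p by omega, prod_range_add]
    congr 1
  have n1 : ((4 * p).factorial : ℚ) ≠ 0 := by positivity
  have n2 : ((4 * p - 1).factorial : ℚ) ≠ 0 := by positivity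
  refine ⟨a * (4 * p).factorial * (4 * p - 1).factorial * (4 * p - 1).factorial,
    by positivity, ?_⟩
  have c1 : (C ((4 * p).factorial : ℚ) : ℚ[X]) * C (((4 * p).factorial : ℚ)⁻¹) = 1 := by
    rw [← map_mul, mul_inv_cancel₀ n1, map_one]
  have c2 : (C ((4 * p - 1).factorial : ℚ) : ℚ[X]) * C (((4 * p - 1).factorial : ℚ)⁻¹) = 1 := by
    rw [← map_mul, mul_inv_cancel₀ n2, map_one]
  rw [hLf, ha, b1, b2, b3, map_mul, map_mul, map_mul]
  calc P0 ^ 2 * P1 * P2 * P3 * C a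
      = (C ((4 * p).factorial : ℚ) * C (((4 * p).factorial : ℚ)⁻¹)) *
        (C ((4 * p - 1).factorial : ℚ) * C (((4 * p - 1).factorial : ℚ)⁻¹)) *
        (C ((4 * p - 1).factorial : ℚ) * C (((4 * p - 1).factorial : ℚ)⁻¹)) *
        (P0 ^ 2 * P1 * P2 * P3 * C a) := by rw [c1, c2]; ring
    _ = _ := by ring

end Pool.Agent.Work.MP_d8cfe3_al
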