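import Pool.Agent.Work.MP_d8cfe3_al.Final

namespace Pool.Agent.Work.MP_d8cfe3_al

open PowerSeries Finset

variable {p M : ℕ}

/-- lower part -/
noncomputable def l1 (p M : ℕ) : ℚ⟦X⟧ := ∑ k ∈ range (2 * p), ((M.choose k : ℚ) ^ 2) • z k
/-- upper part -/
noncomputable def l2 (p M : ℕ) : ℚ⟦X⟧ :=
  ∑ k ∈ range (2 * p), ((M.choose (2 * p + k) : ℚ) ^ 2) • z k

theorem al_split (hM : M + 1 = 4 * p) :
    al (M + 1) M = l1 p M + z ((2 * p : ℕ) : ℚ) * l2 p M := by
  rw [al_top, show M + 1 = 2 * p + 2 * p by omega, sum_range_add, l1, l2, mul_sum]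
  congr 1
  refine sum_congr rfl fun k _ => ?_
  rw [mul_smul_comm, ← z_add, Nat.cast_add]

theorem D_l1 : D (2 * p - 1) (l1 p M) :=
  D_sum _ fun k hk => ((D_z k).mono (by have := mem_range.1 hk; omega)).smul _

theorem D_l2 : D (2 * p - 1) (l2 p M) :=
  D_sum _ fun k hk => ((D_z k).mono (by have := mem_range.1 hk; omega)).smul _

theorem hzz (n : ℕ) : z (n : ℚ) * z (-(n : ℚ)) = 1 := by
  rw [← z_add, add_neg_cancel, z_zero]

theorem PQ_ne (hM : M + 1 = 4 * p) :
    coeff 1 (l2 p M) + coeff 1 (z (-((2 * p : ℕ) : ℚ)) * l1 p M) < 0 := by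
  simp only [l1, l2, mul_sum, mul_smul_comm, ← z_add, map_sum, map_smul, coeff_z,
      Ring.choose_one_right, smul_eq_mul]
  rw [← sum_range_reflect, ← sum_add_distrib]
  refine sum_neg (fun k hk => ?_) ⟨0, mem_range.2 (by omega)⟩
  have hk' := mem_range.1 hk
  have h1 : (0 : ℚ) < (M.choose k : ℚ) := by exact_mod_cast Nat.choose_pos (by omega)
  have h2 : M.choose (2 * p + (2 * p - 1 - k)) = M.choose k :=
    Nat.choose_symm_of_eq_add (by omega)
  have h3 : ((2 * p - 1 - k : ℕ) : ℚ) = ((2 * p : ℕ) : ℚ) - 1 - k := by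
    have : 2 * p - 1 - k + 1 + k = 2 * p := by omega
    have h4 : ((2 * p - 1 - k + 1 + k : ℕ) : ℚ) = ((2 * p : ℕ) : ℚ) := by rw [this]
    push_cast at h4 ⊢
    linarith
  rw [h2, h3]
  nlinarith [sq_pos_of_pos h1]

theorem s_rel (hM : M + 1 = 4 * p) (t : ℚ) :
    B p (fa M t) (fa M t) (fa M t) (fx M t) =
      B p (fb M t) (fb M t) (fb M t) (fb M t) - B p (fa M t) (fb M t) (fb M t) (fb M t)
      - (3 * B p (fa M t) (fa M t) (fx M t) (fx M t) + 3 * B p (fa M t) (fx M t) (fx M t) (fx M t)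
        + B p (fx M t) (fx M t) (fx M t) (fx M t)) := by
  have s01 : ∀ f g, B p (fx M t) (fa M t) f g = B p (fa M t) (fx M t) f g :=
    fun f g => B_swap01 _ _ _ _ _
  have s12 : ∀ f g, B p f (fx M t) (fa M t) g = B p f (fa M t) (fx M t) g :=
    fun f g => B_swap12 _ _ _ _ _
  have s23 : ∀ f g, B p f g (fx M t) (fa M t) = B p f g (fa M t) (fx M t) :=
    fun f g => B_swap23 _ _ _ _ _
  simp only [fb_eq hM, B_add0, B_add1, B_add2, B_add3, s01, s12, s23]
  ring

theorem printed_eq (hM : M + 1 = 4 * p) (t : ℚ) :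
    Lam p t (B p (fa M t) (fa M t) (fb M t) (fx M t))
      = Lam p t (B p (fa M t) (fa M t) (fa M t) (fx M t)) := by
  rw [fb_eq hM, B_add2, Lam_add, S2_zero hM, add_zero]

theorem D_s2 (hM : M + 1 = 4 * p) (t : ℚ) :
    D (24 * p - 4) (z (6 * p - 2 - 2 * t) * B p (fa M t) (fa M t) (fx M t) (fx M t)) := by
  refine D_B _ _ _ _ fun e he => ?_
  obtain ⟨h0, h1, h2, h3, h4, h5, h6, h7⟩ := supp_facts p e he
  obtain ⟨w, hw⟩ : ∃ w, e 2 + e 3 = 2 * p + w := ⟨e 2 + e 3 - 2 * p, by omega⟩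
  have hw' : (e 2 : ℚ) + e 3 = 2 * p + w := by exact_mod_cast hw
  have e1 : z (6 * p - 2 - 2 * t) * (fa M t (e 0) * fa M t (e 1) * fx M t (e 2) * fx M t (e 3))
      = z w * (fa M t (e 0) * fa M t (e 1) * eta M (t + e 2) * eta M (t + e 3)) := by
    rw [show (w : ℚ) = (6 * p - 2 - 2 * t) + (t + e 2 - M) + (t + e 3 - M) by
      rw [castM hM]; linarith, z_add, z_add, fx, fx, xi_eq, xi_eq]
    ring
  rw [e1]
  have hsw : 2 * p ≤ e 0 + e 1 := by
    have := LB_Dl ![1, 1, 0, 0] (2 * p) e he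
    simpa [Fin.sum_univ_four] using this
  exact ((D_z w).mul ((((D_fa t _).mul (D_fa t _)).mul (D_eta M _)).mul (D_eta M _))).mono
    (by omega)

theorem D_s1 (hM : M + 1 = 4 * p) (t u : ℚ) (r : ℕ) (h : u + t - M = r) :
    D (r + 22 * p) (z u * B p (fa M t) (fa M t) (fa M t) (fx M t)) := by
  refine D_B _ _ _ _ fun e he => ?_
  obtain ⟨h0, h1, h2, h3, h4, h5, h6, h7⟩ := supp_facts p e he
  have e1 : z u * (fa M t (e 0) * fa M t (e 1) * fa M t (e 2) * fx M t (e 3))
      = z ((r + e 3 : ℕ) : ℚ) * (fa M t (e 0) * fa M t (e 1) * fa M t (e 2) * eta M (t + e 3)) := by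
    rw [show ((r + e 3 : ℕ) : ℚ) = u + (t + e 3 - M) by push_cast; linarith, z_add, fx, xi_eq]
    ring
  rw [e1]
  exact ((D_z _).mul ((((D_fa t _).mul (D_fa t _)).mul (D_fa t _)).mul (D_eta M _))).mono
    (by omega)

theorem D_s3 (hM : M + 1 = 4 * p) (t u : ℚ) (r : ℕ) (h : u + 3 * t - 3 * M + 6 * p = r) :
    D (r + 22 * p) (z u * B p (fa M t) (fx M t) (fx M t) (fx M t)) := by
  refine D_B _ _ _ _ fun e he => ?_
  obtain ⟨h0, h1, h2, h3, h4, h5, h6, h7⟩ := supp_facts p e he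
  obtain ⟨w, hw⟩ : ∃ w, e 1 + e 2 + e 3 = 6 * p + w := ⟨e 1 + e 2 + e 3 - 6 * p, by omega⟩
  have hw' : (e 1 : ℚ) + e 2 + e 3 = 6 * p + w := by exact_mod_cast hw
  have e1 : z u * (fa M t (e 0) * fx M t (e 1) * fx M t (e 2) * fx M t (e 3))
      = z ((r + w : ℕ) : ℚ) *
        (fa M t (e 0) * eta M (t + e 1) * eta M (t + e 2) * eta M (t + e 3)) := by
    rw [show ((r + w : ℕ) : ℚ) = u + (t + e 1 - M) + (t + e 2 - M) + (t + e 3 - M) by
      push_cast; linarith, z_add, z_add, z_add, fx, fx, fx, xi_eq, xi_eq, xi_eq]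
    ring
  rw [e1]
  exact ((D_z _).mul ((((D_fa t _).mul (D_eta M _)).mul (D_eta M _)).mul (D_eta M _))).mono
    (by omega)

theorem D_s4 (hM : M + 1 = 4 * p) (t u : ℚ) (r : ℕ) (h : u + 4 * t - 4 * M + 12 * p = r) :
    D (r + 16 * p) (z u * B p (fx M t) (fx M t) (fx M t) (fx M t)) := by
  refine D_B _ _ _ _ fun e he => ?_
  have h0 := (supp_facts p e he).1
  have h0' : (e 0 : ℚ) + e 1 + e 2 + e 3 = 12 * p := by exact_mod_cast h0
  have e1 : z u * (fx M t (e 0) * fx M t (e 1) * fx M t (e 2) * fx M t (e 3))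
      = z (r : ℚ) * (eta M (t + e 0) * eta M (t + e 1) * eta M (t + e 2) * eta M (t + e 3)) := by
    rw [show (r : ℚ) = u + (t + e 0 - M) + (t + e 1 - M) + (t + e 2 - M) + (t + e 3 - M) by
      linarith, z_add, z_add, z_add, z_add, fx, fx, fx, fx, xi_eq, xi_eq, xi_eq, xi_eq]
    ring
  rw [e1]
  exact ((D_z _).mul ((((D_eta M _).mul (D_eta M _)).mul (D_eta M _)).mul (D_eta M _))).mono
    (by omega)

theorem D.three {a : ℕ} {f : ℚ⟦X⟧} (hf : D a f) : D a (3 * f) := by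
  have : (3 : ℚ⟦X⟧) * f = f + f + f := by ring
  rw [this]; exact (hf.add hf).add hf

theorem top_values (hM : M + 1 = 4 * p) : ∃ c : ℚ, c ≠ 0 ∧
    Lam p M (B p (fa M M) (fb M M) (fb M M) (fx M M))
      = c * (coeff 1 (l2 p M) - coeff 1 (z (-((2 * p : ℕ) : ℚ)) * l1 p M)) ∧
    Lam p M (B p (fa M M) (fa M M) (fa M M) (fx M M))
      = c * (-coeff 1 (z (-((2 * p : ℕ) : ℚ)) * l1 p M)) := by
  classical
  let es : Fin 4 →₀ ℕ := Finsupp.equivFunOnFinite.symm ![0, 4 * p, 4 * p, 4 * p]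
  have hc : MvPolynomial.coeff es (Dl ^ (2 * p)) ≠ 0 :=
    dyson_ne p es (by simp [es]) (by simp [es]) (by simp [es]) (by simp [es])
  set c := MvPolynomial.coeff es (Dl ^ (2 * p)) with hcdef
  have h3 : ∀ f : ℕ → ℚ⟦X⟧, B p f (fb M M) (fb M M) (fb M M)
      = c • (f 0 * X ^ (24 * p - 3)) := by
    intro f
    rw [B_eq, sum_eq_single es]
    · have a1 : fb M M (4 * p) = X ^ (2 * (M + 1) - 1) := by
        rw [fb_nat, ← be_top]; congr 2; omega
      have b0 : es 0 = 0 := by simp [es]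
      have b1 : es 1 = 4 * p := by simp [es]
      have b2 : es 2 = 4 * p := by simp [es]
      have b3 : es 3 = 4 * p := by simp [es]
      rw [b0, b1, b2, b3, a1, show 24 * p - 3 = (2 * (M + 1) - 1) + (2 * (M + 1) - 1)
        + (2 * (M + 1) - 1) by omega, pow_add, pow_add]
      congr 1; ring
    · intro e he hne
      obtain ⟨h0, h1, h2, h3, h4, h5, h6, h7⟩ := supp_facts p e he
      rw [fb_nat, fb_nat, fb_nat]
      by_cases a1 : e 1 < 4 * p
      · rw [be_nat_zero _ (M + e 1) (by omega)]; simp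
      by_cases a2 : e 2 < 4 * p
      · rw [be_nat_zero _ (M + e 2) (by omega)]; simp
      by_cases a3 : e 3 < 4 * p
      · rw [be_nat_zero _ (M + e 3) (by omega)]; simp
      exfalso
      apply hne
      ext i
      fin_cases i <;> simp [es] <;> omega
    · intro h
      exact absurd (MvPolynomial.mem_support_iff.2 hc) h
  have e1 := split1 hM M
  have e2 := split2 hM M
  have e3 := s_rel hM M
  have b0 : fb M M 0 = 0 := by rw [fb_nat, be_nat_zero _ _ (by omega)]
  rw [h3] at e1 e2 e3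
  rw [h3, b0, zero_mul, smul_zero] at e2 e3
  have ha : fa M M 0 = l1 p M + z ((2 * p : ℕ) : ℚ) * l2 p M := by
    rw [fa, Nat.cast_zero, add_zero, al_split hM]
  have hl1 : D (2 * p - 1) (l1 p M) := D_l1
  have hl2 : D (2 * p - 1) (l2 p M) := D_l2
  have hz : (6 * p - 2 - 2 * (M : ℚ)) = -((2 * p : ℕ) : ℚ) := by rw [castM hM]; push_cast; ring
  have hzz := hzz (2 * p)
  have hG := G2_deg hM M
  have hF := F1_deg hM M
  have d1 := D_s1 hM M 0 0 (by simp)
  have d2 := D_s2 hM M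
  have d3 := D_s3 hM M (-((2 * p : ℕ) : ℚ)) (4 * p) (by push_cast; ring)
  have d4 := D_s4 hM M (-((2 * p : ℕ) : ℚ)) (10 * p) (by push_cast; ring)
  rw [z_zero, one_mul] at d1
  rw [hz] at hG d2
  rw [Lam, Lam, hz]
  set F1 := B p (fa M M) (fb M M) (fb M M) (fa M M)
  set F2 := B p (fx M M) (fb M M) (fb M M) (fx M M)
  set Dd := B p (fa M M) (fb M M) (fb M M) (fx M M)
  set s1 := B p (fa M M) (fa M M) (fa M M) (fx M M)
  set s2 := B p (fa M M) (fa M M) (fx M M) (fx M M)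
  set s3 := B p (fa M M) (fx M M) (fx M M) (fx M M)
  set s4 := B p (fx M M) (fx M M) (fx M M) (fx M M)
  set Z := z (-((2 * p : ℕ) : ℚ))
  set Y := z ((2 * p : ℕ) : ℚ)
  set l1 := l1 p M
  set l2 := l2 p M
  rw [ha] at e1 e2 e3
  have k1 : D (24 * p - 3) (Z * F2 + (2 * c) • (l2 * X ^ (24 * p - 3))) := by
    refine D.cancel (j := 2 * p) (d := 60 * p)
      ((hG.mono (by omega)).add (((hl2.mul (D_X_pow _)).smul _).mono (by omega))) ?_
    have : Y * (Z * F2 + (2 * c) • (l2 * X ^ (24 * p - 3)))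
        = F1 + (-(2 * c)) • (l1 * X ^ (24 * p - 3)) := by
      simp only [smul_eq_C_mul, map_neg, map_mul, map_ofNat] at e1 e2 ⊢
      linear_combination F2 * hzz + e2 - e1
    rw [this]
    exact (hF.mono (by omega)).add (((hl1.mul (D_X_pow _)).smul _).mono (by omega))
  have k2 : Z * Dd = c • ((l2 - Z * l1) * X ^ (24 * p - 3))
      - (Z * F2 + (2 * c) • (l2 * X ^ (24 * p - 3))) := by
    simp only [smul_eq_C_mul, map_mul, map_ofNat] at e2 ⊢
    linear_combination Z * e2 - (C c * l2 * X ^ (24 * p - 3)) * hzz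
  have k3 : D (24 * p - 3) (3 * (Z * s2) + 3 * (Z * s3) + Z * s4 + c • (l2 * X ^ (24 * p - 3))) := by
    refine D.cancel (j := 2 * p) (d := 60 * p)
      ((((d2.three.mono (by omega)).add (d3.three.mono (by omega))).add (d4.mono (by omega))).add
        (((hl2.mul (D_X_pow _)).smul _).mono (by omega))) ?_
    have : Y * (3 * (Z * s2) + 3 * (Z * s3) + Z * s4 + c • (l2 * X ^ (24 * p - 3)))
        = -s1 + (-c) • (l1 * X ^ (24 * p - 3)) := by
      simp only [smul_eq_C_mul, map_neg] at e3 ⊢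
      linear_combination (3 * s2 + 3 * s3 + s4) * hzz + e3
    rw [this]
    exact (d1.neg.mono (by omega)).add (((hl1.mul (D_X_pow _)).smul _).mono (by omega))
  have k4 : Z * s1 = c • ((-(Z * l1)) * X ^ (24 * p - 3))
      - (3 * (Z * s2) + 3 * (Z * s3) + Z * s4 + c • (l2 * X ^ (24 * p - 3))) := by
    simp only [smul_eq_C_mul] at e3 ⊢
    linear_combination Z * e3 - (C c * l2 * X ^ (24 * p - 3)) * hzz
  refine ⟨c, hc, ?_, ?_⟩
  · rw [k2, map_sub, k1 _ (by omega), sub_zero, map_smul,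
      show 24 * p - 2 = 1 + (24 * p - 3) by omega, coeff_mul_X_pow, smul_eq_mul, map_sub]
  · rw [k4, map_sub, k3 _ (by omega), sub_zero, map_smul,
      show 24 * p - 2 = 1 + (24 * p - 3) by omega, coeff_mul_X_pow, smul_eq_mul, map_neg]

theorem bottom_values (hM : M + 1 = 4 * p) (t : ℚ) (ht : t = -((2 * p + 1 : ℕ) : ℚ)) : ∃ c : ℚ,
    Lam p t (B p (fa M t) (fb M t) (fb M t) (fx M t))
      = c * (coeff 1 (l2 p M) - coeff 1 (z (-((2 * p : ℕ) : ℚ)) * l1 p M)) ∧
    Lam p t (B p (fa M t) (fa M t) (fa M t) (fx M t)) = c * coeff 1 (l2 p M) := by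
  classical
  let es : Fin 4 →₀ ℕ := Finsupp.equivFunOnFinite.symm ![6 * p, 2 * p, 2 * p, 2 * p]
  set c := MvPolynomial.coeff es (Dl ^ (2 * p)) with hcdef
  have hfb : ∀ e, e ≤ 6 * p → fb M t e = z (t + e - M) * mu' M (2 * p + 1) e := by
    intro e he
    rw [ht, fb_neg _ _ (by omega)]
  have h3 : ∀ f : ℕ → ℚ⟦X⟧, z (6 * p - 2 - 2 * t) * B p f (fb M t) (fb M t) (fb M t)
      = (-c) • (z (-((2 * p : ℕ) : ℚ)) * f (6 * p) * X ^ (24 * p - 3)) := by
    intro f
    rw [B_eq, sum_eq_single es]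
    · have a1 : mu' M (2 * p + 1) (2 * p) = -X ^ (2 * M + 1) := by
        simp [mu', mu, z_zero]
      have b0 : es 0 = 6 * p := by simp [es]
      have b1 : es 1 = 2 * p := by simp [es]
      have b2 : es 2 = 2 * p := by simp [es]
      have b3 : es 3 = 2 * p := by simp [es]
      rw [b0, b1, b2, b3, hfb _ (by omega), a1, show 24 * p - 3 = (2 * M + 1) + (2 * M + 1)
        + (2 * M + 1) by omega, pow_add, pow_add,
        show -((2 * p : ℕ) : ℚ) = (6 * p - 2 - 2 * t) + (t + (2 * p : ℕ) - M)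
          + (t + (2 * p : ℕ) - M) + (t + (2 * p : ℕ) - M) by
          rw [ht, castM hM]; push_cast; ring, z_add, z_add, z_add]
      simp only [smul_eq_C_mul, map_neg]
      ring
    · intro e he hne
      obtain ⟨h0, h1, h2, h3, h4, h5, h6, h7⟩ := supp_facts p e he
      rw [hfb _ (by omega), hfb _ (by omega), hfb _ (by omega)]
      unfold mu'
      by_cases a1 : e 1 < 2 * p + 1
      · by_cases a2 : e 2 < 2 * p + 1
        · by_cases a3 : e 3 < 2 * p + 1
          · exfalso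
            apply hne
            ext i
            fin_cases i <;> simp [es] <;> omega
          · rw [if_neg a3]; simp
        · rw [if_neg a2]; simp
      · rw [if_neg a1]; simp
    · intro h
      rw [MvPolynomial.notMem_support_iff.1 h, zero_smul]
  have h6 : t + ((6 * p : ℕ) : ℚ) = M := by rw [ht, castM hM]; push_cast; ring
  have b0 : fb M t (6 * p) = 0 := by rw [fb, h6, be_nat_zero _ _ (by omega)]
  have ha : fa M t (6 * p) = l1 p M + z ((2 * p : ℕ) : ℚ) * l2 p M := by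
    rw [fa, h6, al_split hM]
  have ea := h3 (fa M t)
  have eb := h3 (fb M t)
  rw [b0, mul_zero, zero_mul, smul_zero] at eb
  rw [ha] at ea
  have e1 := split1 hM t
  have e2 := split2 hM t
  have e3 := s_rel hM t
  have hl1 : D (2 * p - 1) (l1 p M) := D_l1
  have hl2 : D (2 * p - 1) (l2 p M) := D_l2
  have hzz := hzz (2 * p)
  have hG : D (60 * p) (z (6 * p - 2 - 2 * t) * B p (fa M t) (fb M t) (fb M t) (fa M t)) := by
    refine D_B _ _ _ _ fun e he => ?_
    obtain ⟨h0, h1, h2, h3, h4, h5, h6, h7⟩ := supp_facts p e he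
    obtain ⟨w, hw⟩ : ∃ w, e 1 + e 2 = 2 * p + w := ⟨e 1 + e 2 - 2 * p, by omega⟩
    have hw' : (e 1 : ℚ) + e 2 = 2 * p + w := by exact_mod_cast hw
    have e1 : z (6 * p - 2 - 2 * t) * (fa M t (e 0) * fb M t (e 1) * fb M t (e 2) * fa M t (e 3))
        = z w * (fa M t (e 0) * mu' M (2 * p + 1) (e 1) * mu' M (2 * p + 1) (e 2)
          * fa M t (e 3)) := by
      rw [show (w : ℚ) = (6 * p - 2 - 2 * t) + (t + e 1 - M) + (t + e 2 - M) by
        rw [castM hM]; linarith, z_add, z_add, hfb _ (by omega), hfb _ (by omega)]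
      ring
    rw [e1]
    exact ((D_z w).mul ((((D_fa _ _).mul (D_mu' _ _)).mul (D_mu' _ _)).mul (D_fa _ _))).mono
      (by omega)
  have hYW : z ((2 * p : ℕ) : ℚ) * z (6 * p - 2 - 2 * t) = z ((12 * p : ℕ) : ℚ) := by
    rw [← z_add, ht]; congr 1; push_cast; ring
  have hF : D (26 * p - 3) (z ((12 * p : ℕ) : ℚ) * B p (fx M t) (fb M t) (fb M t) (fx M t)) := by
    refine D_B _ _ _ _ fun e he => ?_
    obtain ⟨h0, h1, h2, h3, h4, h5, h6, h7⟩ := supp_facts p e he
    have h0' : (e 0 : ℚ) + e 1 + e 2 + e 3 = 12 * p := by exact_mod_cast h0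
    have e1 : z ((12 * p : ℕ) : ℚ) * (fx M t (e 0) * fb M t (e 1) * fb M t (e 2) * fx M t (e 3))
        = z 0 * (eta M (t + e 0) * mu' M (2 * p + 1) (e 1) * mu' M (2 * p + 1) (e 2)
          * eta M (t + e 3)) := by
      rw [show (0 : ℚ) = ((12 * p : ℕ) : ℚ) + (t + e 0 - M) + (t + e 1 - M) + (t + e 2 - M)
        + (t + e 3 - M) by rw [castM hM, ht]; push_cast; linarith, z_add, z_add, z_add, z_add,
        hfb _ (by omega), hfb _ (by omega), fx, fx, xi_eq, xi_eq]
      ring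
    rw [e1, z_zero, one_mul]
    by_cases a1 : e 1 < 2 * p + 1
    · by_cases a2 : e 2 < 2 * p + 1
      · exact ((((D_eta M _).mul (D_mu' _ _)).mul (D_mu' _ _)).mul (D_eta M _)).mono (by omega)
      · rw [mu', mu', if_neg a2]; simpa using D_zero _
    · rw [mu', if_neg a1]; simpa using D_zero _
  have d1 := D_s1 hM t (6 * p - 2 - 2 * t) (4 * p) (by rw [ht, castM hM]; push_cast; ring)
  have d2 := (D_z (2 * p)).mul (D_s2 hM t)
  have d3 := D_s3 hM t ((12 * p : ℕ) : ℚ) 0 (by rw [ht, castM hM]; push_cast; ring)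
  have d4 := D_s4 hM t ((12 * p : ℕ) : ℚ) 0 (by rw [ht, castM hM]; push_cast; ring)
  rw [Lam, Lam]
  rw [← hYW] at hF d3 d4
  set F1 := B p (fa M t) (fb M t) (fb M t) (fa M t)
  set F2 := B p (fx M t) (fb M t) (fb M t) (fx M t)
  set Dd := B p (fa M t) (fb M t) (fb M t) (fx M t)
  set s1 := B p (fa M t) (fa M t) (fa M t) (fx M t)
  set s2 := B p (fa M t) (fa M t) (fx M t) (fx M t)
  set s3 := B p (fa M t) (fx M t) (fx M t) (fx M t)
  set s4 := B p (fx M t) (fx M t) (fx M t) (fx M t)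
  set Ea := B p (fa M t) (fb M t) (fb M t) (fb M t)
  set Eb := B p (fb M t) (fb M t) (fb M t) (fb M t)
  set Z := z (-((2 * p : ℕ) : ℚ))
  set Y := z ((2 * p : ℕ) : ℚ)
  set W := z (6 * p - 2 - 2 * t)
  set l1 := l1 p M
  set l2 := l2 p M
  set T := (X : ℚ⟦X⟧) ^ (24 * p - 3) with hT
  have hDT : D (24 * p - 3) T := D_X_pow _
  simp only [smul_eq_C_mul, map_neg] at ea
  have k1 : D (24 * p - 3) (W * F1 + (2 * c) • (l2 * T)) := by
    refine D.cancel (j := 2 * p) (d := 60 * p)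
      (hG.add (((hl2.mul hDT).smul _).mono (by omega))) ?_
    have : Y * (W * F1 + (2 * c) • (l2 * T)) = Y * W * F2 + (-(2 * c)) • (l1 * T) := by
      simp only [smul_eq_C_mul, map_neg, map_mul, map_ofNat]
      linear_combination Y * W * e1 - Y * W * e2 + 2 * Y * ea - Y * eb
        - 2 * C c * (l1 + Y * l2) * T * hzz
    rw [this]
    exact (hF.mono (by omega)).add (((hl1.mul hDT).smul _).mono (by omega))
  have k2 : W * Dd = c • ((l2 - Z * l1) * T) - (W * F1 + (2 * c) • (l2 * T)) := by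
    simp only [smul_eq_C_mul, map_mul, map_ofNat]
    linear_combination W * e1 + ea - (C c * l2 * T) * hzz
  have k3 : D (24 * p - 3) (W * s1 + (-c) • (l2 * T)) := by
    refine D.cancel (j := 2 * p) (d := 60 * p)
      ((d1.mono (by omega)).add (((hl2.mul hDT).smul _).mono (by omega))) ?_
    have : Y * (W * s1 + (-c) • (l2 * T))
        = c • (l1 * T) + -(3 * (Y * (W * s2)) + 3 * (Y * W * s3) + Y * W * s4) := by
      simp only [smul_eq_C_mul, map_neg]
      linear_combination Y * W * e3 - Y * ea + Y * eb + C c * (l1 + Y * l2) * T * hzz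
    rw [this]
    exact (((hl1.mul hDT).smul _).mono (by omega)).add
      (((d2.three.mono (by omega)).add (d3.three.mono (by omega))).add (d4.mono (by omega))).neg
  have k4 : W * s1 = c • (l2 * T) + (W * s1 + (-c) • (l2 * T)) := by
    simp only [smul_eq_C_mul, map_neg]; ring
  refine ⟨c, ?_, ?_⟩
  · rw [k2, map_sub, k1 _ (by omega), sub_zero, map_smul,
      show 24 * p - 2 = 1 + (24 * p - 3) by omega, hT, coeff_mul_X_pow, smul_eq_mul, map_sub]
  · rw [k4, map_add, k3 _ (by omega), add_zero, map_smul,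
      show 24 * p - 2 = 1 + (24 * p - 3) by omega, hT, coeff_mul_X_pow, smul_eq_mul]

theorem printed (p : ℕ) (hp : 1 ≤ p) : ¬ ∃ A : ℚ,
    ∑ᶠ i, gterm false p i = Polynomial.C A *
      binom (Polynomial.X + (p : Polynomial ℚ) + Polynomial.C (1 / 2)) (4 * p) *
      binom (Polynomial.X + 2 * (p : Polynomial ℚ)) (4 * p - 1) *
      binom Polynomial.X (4 * p - 1) := by
  rintro ⟨A', hA'⟩
  obtain ⟨A, hA0, hA⟩ := swapped p hp
  obtain ⟨M, hM⟩ : ∃ M, M + 1 = 4 * p := ⟨4 * p - 1, by omega⟩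
  have hev : ∀ t, (∑ᶠ i, gterm true p i).eval t
      = Lam p t (B p (fa M t) (fb M t) (fb M t) (fx M t)) := fun t => eval_L true hM t
  have hev' : ∀ t, (∑ᶠ i, gterm false p i).eval t
      = Lam p t (B p (fa M t) (fa M t) (fa M t) (fx M t)) :=
    fun t => (eval_L false hM t).trans (printed_eq hM t)
  have hrel : ∀ t, A * Lam p t (B p (fa M t) (fa M t) (fa M t) (fx M t))
      = A' * Lam p t (B p (fa M t) (fb M t) (fb M t) (fx M t)) := by
    intro t
    rw [← hev, ← hev', hA, hA']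
    simp only [Polynomial.eval_mul, Polynomial.eval_C]
    ring
  obtain ⟨c, hc, h1, h2⟩ := top_values hM
  obtain ⟨c', h3, h4⟩ := bottom_values hM _ rfl
  have hc' : c' ≠ 0 := by
    rintro rfl
    rw [← hev, hA, zero_mul] at h3
    simp only [Polynomial.eval_mul, Polynomial.eval_C, eval_binom, choose_eq_prod, mul_eq_zero,
      prod_eq_zero_iff, inv_eq_zero, Nat.cast_eq_zero, Nat.factorial_ne_zero, false_or, hA0,
      Polynomial.eval_add, Polynomial.eval_X, Polynomial.eval_natCast,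
      Polynomial.eval_ofNat] at h3
    push_cast at h3
    have hp0 : (0 : ℚ) ≤ p := by positivity
    rcases h3 with (⟨i, -, h⟩ | ⟨i, -, h⟩) | ⟨i, -, h⟩ <;>
    · have : (0 : ℚ) ≤ i := by positivity
      linarith
  have r1 := hrel M
  have r2 := hrel (-((2 * p + 1 : ℕ) : ℚ))
  rw [h1, h2] at r1
  rw [h3, h4] at r2
  have hPQ := PQ_ne hM
  set Q := coeff 1 (l2 p M)
  set P := coeff 1 (z (-((2 * p : ℕ) : ℚ)) * l1 p M)
  have s1 : A * (-P) = A' * (Q - P) := mul_left_cancel₀ hc (by linear_combination r1)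
  have s2 : A * Q = A' * (Q - P) := mul_left_cancel₀ hc' (by linear_combination r2)
  have : A * (Q + P) = 0 := by linear_combination s2 - s1
  rcases mul_eq_zero.1 this with h | h
  · exact hA0 h
  · linarith

end Pool.Agent.Work.MP_d8cfe3_al
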