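import Mathlib.RingTheory.PowerSeries.Binomial
import Mathlib.Algebra.Order.Field.Rat
import Mathlib.Tactic

namespace Pool.Agent.Work.MP_d8cfe3_al

open PowerSeries Finset

/-- The binomial series `(1+x)^u`. -/
noncomputable def z (u : ℚ) : ℚ⟦X⟧ := binomialSeries ℚ u

theorem coeff_z (u : ℚ) (n : ℕ) : coeff n (z u) = Ring.choose u n := by simp [z]

theorem z_add (u v : ℚ) : z (u + v) = z u * z v := by simp [z]

theorem z_nat (n : ℕ) : z n = (1 + X) ^ n := by simp [z]

theorem z_zero : z 0 = 1 := by simp [z]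

/-- Degree bound. -/
def D (d : ℕ) (f : ℚ⟦X⟧) : Prop := ∀ n, d < n → coeff n f = 0

theorem D.mono {a b : ℕ} {f : ℚ⟦X⟧} (h : D a f) (hab : a ≤ b) : D b f :=
  fun n hn => h n (lt_of_le_of_lt hab hn)

theorem D_zero (a : ℕ) : D a 0 := fun n _ => by simp

theorem D.add {a : ℕ} {f g : ℚ⟦X⟧} (hf : D a f) (hg : D a g) : D a (f + g) :=
  fun n hn => by simp [hf n hn, hg n hn]

theorem D.neg {a : ℕ} {f : ℚ⟦X⟧} (hf : D a f) : D a (-f) :=
  fun n hn => by simp [hf n hn]

theorem D.smul {a : ℕ} {f : ℚ⟦X⟧} (hf : D a f) (c : ℚ) : D a (c • f) :=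
  fun n hn => by simp [hf n hn]

theorem D.mul {a b : ℕ} {f g : ℚ⟦X⟧} (hf : D a f) (hg : D b g) : D (a + b) (f * g) := by
  intro n hn
  rw [coeff_mul]
  refine sum_eq_zero fun x hx => ?_
  have := mem_antidiagonal.1 hx
  by_cases h : a < x.1
  · rw [hf _ h, zero_mul]
  · rw [hg x.2 (by omega), mul_zero]

theorem D_sum {ι : Type} (s : Finset ι) {a : ℕ} {f : ι → ℚ⟦X⟧} (h : ∀ i ∈ s, D a (f i)) :
    D a (∑ i ∈ s, f i) := by
  intro n hn
  rw [map_sum]
  exact sum_eq_zero fun i hi => h i hi n hn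

theorem D_z (n : ℕ) : D n (z n) := by
  intro m hm
  rw [coeff_z, Ring.choose_natCast, Nat.choose_eq_zero_of_lt hm, Nat.cast_zero]

theorem D_X_pow (n : ℕ) : D n (X ^ n) := by
  intro m hm
  rw [coeff_X_pow, if_neg (by omega)]

theorem D.cancel_one {j d d' : ℕ} {G : ℚ⟦X⟧} (hG : D (d + 1) G) (h : D (j + d') (z j * G))
    (hd : d' ≤ d) : D d G := by
  have h1 := h (j + (d + 1)) (by omega)
  rw [coeff_mul, sum_eq_single (j, d + 1)] at h1
  · rw [coeff_z, Ring.choose_natCast, Nat.choose_self, Nat.cast_one, one_mul] at h1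
    intro n hn
    rcases Nat.lt_or_ge (d + 1) n with h2 | h2
    · exact hG n h2
    · have : n = d + 1 := by omega
      rw [this, h1]
  · intro x hx hne
    have := mem_antidiagonal.1 hx
    by_cases h2 : j < x.1
    · rw [D_z j _ h2, zero_mul]
    · have : d + 1 < x.2 := by
        by_contra h3
        exact hne (Prod.ext (by simp; omega) (by simp; omega))
      rw [hG _ this, mul_zero]
  · intro h2
    exact absurd (mem_antidiagonal.2 (by simp)) h2

theorem D.cancel {j d d' : ℕ} {G : ℚ⟦X⟧} (hG : D d G) (h : D (j + d') (z j * G)) : D d' G := by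
  induction d with
  | zero => exact hG.mono (Nat.zero_le _)
  | succ d ih =>
    by_cases hd : d' ≤ d
    · exact ih (hG.cancel_one h hd)
    · exact hG.mono (by omega)

theorem D.cancel_int {d d' d0 : ℕ} {m : ℤ} {F : ℚ⟦X⟧} (hG : D d (z m * F)) (hF : D d' F)
    (h : (d' : ℤ) + m ≤ d0) : D d0 (z m * F) := by
  rcases le_or_gt 0 m with hm | hm
  · lift m to ℕ using hm
    rw [Int.cast_natCast]
    exact ((D_z m).mul hF).mono (by omega)
  · obtain ⟨j, hj⟩ : ∃ j : ℕ, m = -j := ⟨(-m).toNat, by omega⟩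
    subst hj
    refine hG.cancel (j := j) ?_
    rw [← mul_assoc, ← z_add]
    simp only [Int.cast_neg, Int.cast_natCast, add_neg_cancel, z_zero, one_mul]
    exact hF.mono (by omega)

/-- Hadamard product with a weight sequence. -/
noncomputable def H (w : ℕ → ℚ) : ℚ⟦X⟧ →ₗ[ℚ] ℚ⟦X⟧ where
  toFun f := PowerSeries.mk fun m => w m * coeff m f
  map_add' f g := by ext m; simp [mul_add]
  map_smul' c f := by ext m; simp; ring

theorem coeff_H (w : ℕ → ℚ) (f : ℚ⟦X⟧) (m : ℕ) : coeff m (H w f) = w m * coeff m f := by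
  simp [H]

/-- Weight for the expansion in the integration variable. -/
noncomputable def wA (N m : ℕ) : ℚ :=
  if m < N then Ring.choose (-(N : ℚ)) (N - 1 - m) * (-1) ^ (N - 1 - m) else 0

/-- Weight for the expansion in the outer variable. -/
noncomputable def wB (N m : ℕ) : ℚ :=
  if 2 * N - 1 ≤ m then Ring.choose (-(N : ℚ)) (m - (2 * N - 1)) * (-1) ^ (m - (2 * N - 1)) else 0

/-- Weight for the delta function. -/
noncomputable def wX (N m : ℕ) : ℚ := Ring.choose ((m : ℚ) - N) (N - 1)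

theorem choose_neg_nat (a k : ℕ) :
    Ring.choose (-((a + 1 : ℕ) : ℚ)) k = (-1) ^ k * ((a + k).choose k : ℚ) := by
  rw [Ring.choose_neg, show ((a + 1 : ℕ) : ℚ) + k - 1 = ((a + k : ℕ) : ℚ) by push_cast; ring,
    Ring.choose_natCast]
  simp [Units.smul_def]

theorem choose_neg_mul (a k : ℕ) :
    Ring.choose (-((a + 1 : ℕ) : ℚ)) k * (-1) ^ k = ((a + k).choose k : ℚ) := by
  rw [choose_neg_nat, mul_right_comm, ← mul_pow]; simp

theorem wB_eq (M : ℕ) (hM : Odd M) (m : ℕ) : wB (M + 1) m = wA (M + 1) m + wX (M + 1) m := by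
  unfold wA wB wX
  simp only [choose_neg_mul, Nat.add_sub_cancel]
  by_cases h1 : m < M + 1
  · rw [if_pos h1, if_neg (by omega)]
    obtain ⟨k, rfl⟩ : ∃ k, M = m + k := ⟨M - m, by omega⟩
    rw [show (m : ℚ) - ((m + k + 1 : ℕ) : ℚ) = -((k + 1 : ℕ) : ℚ) by push_cast; ring,
      choose_neg_nat, hM.neg_one_pow, Nat.add_sub_cancel_left, add_comm k (m + k),
      Nat.choose_symm_add]
    ring
  · obtain ⟨k, rfl⟩ : ∃ k, m = M + 1 + k := ⟨m - (M + 1), by omega⟩
    rw [if_neg h1, show ((M + 1 + k : ℕ) : ℚ) - ((M + 1 : ℕ) : ℚ) = (k : ℚ) by push_cast; ring,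
      Ring.choose_natCast, zero_add]
    split_ifs with h2
    · obtain ⟨j, rfl⟩ : ∃ j, k = M + j := ⟨k - M, by omega⟩
      rw [show M + 1 + (M + j) - (2 * (M + 1) - 1) = j by omega, Nat.choose_symm_add]
    · rw [Nat.choose_eq_zero_of_lt (by omega), Nat.cast_zero]

/-- Residue at zero. -/
noncomputable def al (N : ℕ) (u : ℚ) : ℚ⟦X⟧ := H (wA N) (z u)
/-- Residue on the large circle. -/
noncomputable def be (N : ℕ) (u : ℚ) : ℚ⟦X⟧ := H (wB N) (z u)
/-- Residue at the outer variable. -/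
noncomputable def xi (N : ℕ) (u : ℚ) : ℚ⟦X⟧ := H (wX N) (z u)

theorem be_eq (M : ℕ) (hM : Odd M) (u : ℚ) : be (M + 1) u = al (M + 1) u + xi (M + 1) u := by
  ext m
  simp only [al, be, xi, map_add, coeff_H, wB_eq M hM, add_mul]

theorem D_al (N : ℕ) (u : ℚ) : D (N - 1) (al N u) := by
  intro m hm
  rw [al, coeff_H, wA, if_neg (by omega), zero_mul]

theorem be_dvd (N : ℕ) (u : ℚ) : X ^ (2 * N - 1) ∣ be N u := by
  rw [X_pow_dvd_iff]
  intro m hm
  rw [be, coeff_H, wB, if_neg (by omega), zero_mul]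

theorem D_be (N n : ℕ) : D n (be N n) := by
  intro m hm
  rw [be, coeff_H, D_z n m hm, mul_zero]

theorem be_nat_zero (N n : ℕ) (h : n < 2 * N - 1) : be N n = 0 := by
  ext m
  rw [be, coeff_H, map_zero]
  by_cases hm : n < m
  · rw [D_z n m hm, mul_zero]
  · rw [wB, if_neg (by omega), zero_mul]

theorem be_top (N : ℕ) : be N ((2 * N - 1 : ℕ) : ℚ) = X ^ (2 * N - 1) := by
  ext m
  rw [be, coeff_H, coeff_X_pow]
  rcases lt_trichotomy m (2 * N - 1) with h | h | h
  · rw [wB, if_neg (by omega), zero_mul, if_neg (by omega)]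
  · rw [if_pos h, wB, if_pos h.ge, coeff_z, h, Ring.choose_natCast]; simp
  · rw [D_z _ m h, mul_zero, if_neg (by omega)]

theorem choose_mul_choose (u : ℚ) {n k : ℕ} (h : k ≤ n) :
    Ring.choose u k * Ring.choose (u - k) (n - k) = (n.choose k : ℚ) * Ring.choose u n := by
  rw [← Ring.choose_smul_choose u h, nsmul_eq_mul]

/-- The polynomial part of `xi`. -/
noncomputable def eta (M : ℕ) (u : ℚ) : ℚ⟦X⟧ :=
  ∑ x ∈ antidiagonal M, (Ring.choose u x.1 * Ring.choose (-((M + 1 : ℕ) : ℚ)) x.2) •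
    (z x.2 * X ^ x.1)

theorem D_eta (M : ℕ) (u : ℚ) : D M (eta M u) := by
  refine D_sum _ fun x hx => D.smul ?_ _
  have := mem_antidiagonal.1 hx
  exact ((D_z x.2).mul (D_X_pow x.1)).mono (by omega)

theorem xi_eq (M : ℕ) (u : ℚ) : xi (M + 1) u = z (u - M) * eta M u := by
  ext m
  rw [xi, coeff_H, coeff_z, eta, mul_sum, map_sum, wX, Nat.add_sub_cancel, sub_eq_add_neg,
    Ring.add_choose_eq M (Commute.all _ _), sum_mul]
  refine sum_congr rfl fun x hx => ?_
  have hx' := mem_antidiagonal.1 hx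
  have e1 : u - M + x.2 = u - x.1 := by rw [← hx']; push_cast; ring
  rw [mul_smul_comm, ← mul_assoc, ← z_add, e1, map_smul, coeff_mul_X_pow', smul_eq_mul,
    Ring.choose_natCast]
  split_ifs with h
  · rw [coeff_z]
    have := choose_mul_choose u h
    linear_combination (-Ring.choose (-((M + 1 : ℕ) : ℚ)) x.2) * this
  · rw [Nat.choose_eq_zero_of_lt (by omega)]; simp

/-- The polynomial part of `be` at negative integers. -/
noncomputable def mu (M j : ℕ) : ℚ⟦X⟧ :=
  ∑ x ∈ antidiagonal j, ((-1) ^ (j + 1) * Ring.choose (-((M + 1 : ℕ) : ℚ)) x.1 *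
    Ring.choose (-((M + 1 : ℕ) : ℚ)) x.2) • (z x.2 * X ^ (2 * M + 1))

theorem D_mu (M j : ℕ) : D (2 * M + 1 + j) (mu M j) := by
  refine D_sum _ fun x hx => D.smul ?_ _
  have := mem_antidiagonal.1 hx
  exact ((D_z x.2).mul (D_X_pow _)).mono (by omega)

theorem choose_swap (u : ℚ) (k r : ℕ) :
    Ring.choose u k * Ring.choose (u - k) r = Ring.choose u r * Ring.choose (u - r) k := by
  have h1 := choose_mul_choose u (Nat.le_add_right k r)
  have h2 := choose_mul_choose u (Nat.le_add_left r k)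
  rw [Nat.add_sub_cancel_left] at h1
  rw [Nat.add_sub_cancel] at h2
  rw [h1, h2, Nat.choose_symm_add]

theorem be_neg (M j : ℕ) :
    be (M + 1) (-((j + 1 : ℕ) : ℚ)) = z (-((j + 1 : ℕ) : ℚ) - M) * mu M j := by
  ext m
  rw [be, coeff_H, coeff_z, mu, mul_sum, map_sum, wB,
    show 2 * (M + 1) - 1 = 2 * M + 1 by omega]
  simp only [mul_smul_comm, ← mul_assoc, ← z_add, map_smul, coeff_mul_X_pow', smul_eq_mul]
  split_ifs with h
  · obtain ⟨k, rfl⟩ : ∃ k, m = 2 * M + 1 + k := ⟨m - (2 * M + 1), by omega⟩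
    rw [Nat.add_sub_cancel_left]
    have e1 : Ring.choose (-((j + 1 : ℕ) : ℚ)) (2 * M + 1 + k) * (-1) ^ k
        = (-1) ^ (j + 1) * Ring.choose ((-((M + 1 : ℕ) : ℚ) - k) + (-((M + 1 : ℕ) : ℚ))) j := by
      rw [show (-((M + 1 : ℕ) : ℚ) - k) + (-((M + 1 : ℕ) : ℚ)) = -((2 * M + 1 + k + 1 : ℕ) : ℚ) by
        push_cast; ring, choose_neg_nat, choose_neg_nat, add_comm j (2 * M + 1 + k),
        Nat.choose_symm_add]
      have a1 : ((-1 : ℚ)) ^ (2 * M + 1 + k) * (-1) ^ k = -1 := by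
        rw [← pow_add]; exact Odd.neg_one_pow ⟨M + k, by ring⟩
      have a2 : ((-1 : ℚ)) ^ (j + 1) * (-1) ^ j = -1 := by
        rw [← pow_add]; exact Odd.neg_one_pow ⟨j, by ring⟩
      linear_combination (((2 * M + 1 + k + j).choose j : ℕ) : ℚ) * (a1 - a2)
    rw [mul_assoc, mul_comm ((-1 : ℚ) ^ k), e1, Ring.add_choose_eq j (Commute.all _ _), mul_sum,
      mul_sum]
    refine sum_congr rfl fun x hx => ?_
    have hx' := mem_antidiagonal.1 hx
    have e2 : -((j + 1 : ℕ) : ℚ) - M + x.2 = -((M + 1 : ℕ) : ℚ) - x.1 := by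
      rw [← hx']; push_cast; ring
    rw [coeff_z, e2]
    have := choose_swap (-((M + 1 : ℕ) : ℚ)) k x.1
    linear_combination ((-1) ^ (j + 1) * Ring.choose (-((M + 1 : ℕ) : ℚ)) x.2) * this
  · simp

theorem al_top (M : ℕ) :
    al (M + 1) M = ∑ k ∈ range (M + 1), ((M.choose k : ℚ) ^ 2) • z k := by
  ext m
  rw [al, coeff_H, coeff_z, map_sum, wA]
  simp only [map_smul, coeff_z, Ring.choose_natCast, smul_eq_mul, choose_neg_mul,
    Nat.add_sub_cancel]
  split_ifs with h
  · obtain ⟨r, rfl⟩ : ∃ r, M = m + r := ⟨M - m, by omega⟩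
    rw [Nat.add_sub_cancel_left, Nat.add_choose_eq, Nat.sum_antidiagonal_eq_sum_range_succ_mk,
      show m + r + 1 = m + (r + 1) by ring, sum_range_add, sum_eq_zero (s := range m), zero_add,
      ← sum_range_reflect]
    · push_cast
      rw [sum_mul]
      refine sum_congr rfl fun i hi => ?_
      have hi' : i ≤ r := by simpa [Nat.lt_succ_iff] using hi
      have a1 : (m + r).choose (m + i) * (m + i).choose m = (m + r).choose m * r.choose i := by
        rw [Nat.choose_mul (by omega), Nat.add_sub_cancel_left, Nat.add_sub_cancel_left]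
      have a2 : (m + r).choose (r - i) = (m + r).choose (m + i) :=
        Nat.choose_symm_of_eq_add (by omega)
      rw [show r - (r - i) = i by omega, a2]
      have a3 : (((m + r).choose (m + i) : ℕ) : ℚ) * ((m + i).choose m : ℕ)
        = ((m + r).choose m : ℕ) * (r.choose i : ℕ) := by exact_mod_cast a1
      linear_combination (-(((m + r).choose (m + i) : ℕ) : ℚ)) * a3
    · intro k hk
      rw [Nat.choose_eq_zero_of_lt (mem_range.1 hk)]; simp
  · rw [zero_mul]
    symm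
    refine sum_eq_zero fun k hk => ?_
    rw [Nat.choose_eq_zero_of_lt (n := k) (k := m) (by have := mem_range.1 hk; omega)]; simp

theorem H_shift (w : ℕ → ℚ) (t : ℚ) (e : ℕ) :
    ∑ j ∈ range (e + 1), (e.choose j : ℚ) • H w (X ^ j * z t) = H w (z (t + e)) := by
  rw [add_comm t, z_add, z_nat, add_comm (1 : ℚ⟦X⟧), add_pow, sum_mul, map_sum]
  refine sum_congr rfl fun j _ => ?_
  rw [← map_smul]
  congr 1
  rw [one_pow, mul_one, smul_eq_C_mul, map_natCast]
  ring

end Pool.Agent.Work.MP_d8cfe3_al
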